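import Pool.Agent.Run7.h245.NF.Sel

/-!
# No condition at the real places over which `x ^ 3 + a x + b` has exactly one real zero
-/

set_option autoImplicit false
set_option linter.all false

open Polynomial NumberField
open scoped Classical ComplexConjugate

namespace Pool.Agent.Run7.h245.NF

open Pool.Agent.N783.PQ (LocIm)

/-- At most one real zero. -/
theorem real_unique {a b x y : ℝ} (h : 0 < 4 * a ^ 3 + 27 * b ^ 2) (hx : x ^ 3 + a * x + b = 0)
    (hy : y ^ 3 + a * y + b = 0) : x = y := by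
  by_contra hne
  have hxy : x - y ≠ 0 := sub_ne_zero.2 hne
  have ha : a = -(x ^ 2 + x * y + y ^ 2) := by
    apply mul_left_cancel₀ hxy
    linear_combination hx - hy
  have hb : b = x * y * (x + y) := by
    rw [ha] at hx
    linear_combination hx
  rw [ha, hb] at h
  have e : 4 * (-(x ^ 2 + x * y + y ^ 2)) ^ 3 + 27 * (x * y * (x + y)) ^ 2 =
      -(((x - y) * (2 * x + y) * (x + 2 * y)) ^ 2) := by ring
  rw [e] at h
  linarith [sq_nonneg ((x - y) * (2 * x + y) * (x + 2 * y))]

/-- There is a real zero. -/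
theorem real_exists (a b : ℝ) : ∃ r : ℝ, r ^ 3 + a * r + b = 0 := by
  set M : ℝ := 1 + |a| + |b| with hM
  have ha := abs_nonneg a
  have hb := abs_nonneg b
  have hM1 : 1 ≤ M := by rw [hM]; linarith
  have hcont : Continuous fun r : ℝ => r ^ 3 + a * r + b := by fun_prop
  have h1 : (-M) ^ 3 + a * (-M) + b ≤ 0 := by
    have e1 : -(a * M) ≤ |a| * M := by
      have := neg_abs_le a
      nlinarith
    have e2 : b ≤ |b| := le_abs_self b
    have e3 : |a| * M + |b| ≤ M ^ 3 := by
      have h4 : |a| * M + |b| ≤ (|a| + |b|) * M := by nlinarith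
      have h5 : (|a| + |b|) * M ≤ M * M := by
        apply mul_le_mul_of_nonneg_right _ (by linarith)
        rw [hM]; linarith
      have h6 : M * M ≤ M ^ 3 := by nlinarith [mul_self_nonneg M]
      linarith
    nlinarith
  have h2 : 0 ≤ M ^ 3 + a * M + b := by
    have e1 : -(a * M) ≤ |a| * M := by
      have := neg_abs_le a
      nlinarith
    have e2 : -b ≤ |b| := neg_le_abs b
    have e3 : |a| * M + |b| ≤ M ^ 3 := by
      have h4 : |a| * M + |b| ≤ (|a| + |b|) * M := by nlinarith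
      have h5 : (|a| + |b|) * M ≤ M * M := by
        apply mul_le_mul_of_nonneg_right _ (by linarith)
        rw [hM]; linarith
      have h6 : M * M ≤ M ^ 3 := by nlinarith [mul_self_nonneg M]
      linarith
    linarith
  obtain ⟨r, -, hr⟩ := intermediate_value_Icc (by linarith : -M ≤ M) hcont.continuousOn
    (show (0 : ℝ) ∈ Set.Icc ((-M) ^ 3 + a * (-M) + b) (M ^ 3 + a * M + b) from ⟨h1, h2⟩)
  exact ⟨r, hr⟩

/-- A square in `ℝ × ℂ`. -/
theorem exists_sq (h : ℝ[X]) {a r : ℝ} (hq : 3 * r ^ 2 + 4 * a > 0) (hr : 0 ≤ h.eval r) :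
    ∃ s : ℝ[X], (X - C r) * (X ^ 2 + C r * X + C (r ^ 2 + a)) ∣ h - s ^ 2 := by
  -- the nonreal zero
  set δ : ℝ := Real.sqrt (3 * r ^ 2 + 4 * a) with hδ
  have hδ0 : 0 < δ := Real.sqrt_pos.2 hq
  have hδ2 : δ ^ 2 = 3 * r ^ 2 + 4 * a := Real.sq_sqrt hq.le
  set z : ℂ := ((-r / 2 : ℝ) : ℂ) + ((δ / 2 : ℝ) : ℂ) * Complex.I with hz
  have hzim : z.im = δ / 2 := by
    rw [hz]
    simp
  have hzre : z.re = -r / 2 := by
    rw [hz]
    simp
  set q : ℝ[X] := X ^ 2 + C r * X + C (r ^ 2 + a) with hqd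
  have hqm : q.Monic := by rw [hqd]; monicity!
  have hqn : q.natDegree = 2 := by rw [hqd]; compute_degree!
  have hqz : aeval z q = 0 := by
    have e1 : aeval z q = z ^ 2 + (r : ℂ) * z + ((r : ℂ) ^ 2 + (a : ℂ)) := by
      rw [hqd]
      simp
    rw [e1]
    apply Complex.ext
    · simp only [Complex.add_re, Complex.mul_re, pow_two, Complex.ofReal_re, Complex.ofReal_im,
        hzim, hzre, Complex.zero_re]
      nlinarith [hδ2]
    · simp only [Complex.add_im, Complex.mul_im, pow_two, Complex.ofReal_re, Complex.ofReal_im,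
        hzim, hzre, Complex.zero_im]
      ring
  -- divisibility by `q`
  have hdvd : ∀ p : ℝ[X], aeval z p = 0 → q ∣ p := by
    intro p hp
    rw [← modByMonic_eq_zero_iff_dvd hqm]
    have h1 : aeval z (p %ₘ q) = 0 := by
      have h2 := congrArg (aeval z) (modByMonic_add_div p q)
      rw [map_add, map_mul, hqz, zero_mul, add_zero, hp] at h2
      exact h2
    have h3 : (p %ₘ q).degree < 2 := by
      have := degree_modByMonic_lt p hqm
      rwa [degree_eq_natDegree hqm.ne_zero, hqn] at this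
    have h4 : (p %ₘ q) = C ((p %ₘ q).coeff 1) * X + C ((p %ₘ q).coeff 0) :=
      eq_X_add_C_of_degree_le_one (Order.le_of_lt_succ h3)
    rw [h4] at h1
    rw [map_add, map_mul, aeval_X, aeval_C, aeval_C] at h1
    have h5 := congrArg Complex.im h1
    have h6 := congrArg Complex.re h1
    simp only [Complex.coe_algebraMap, Complex.add_im, Complex.mul_im, Complex.ofReal_re,
      Complex.ofReal_im, hzim, hzre, Complex.zero_im, Complex.add_re, Complex.mul_re,
      Complex.zero_re] at h5 h6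
    have h7 : (p %ₘ q).coeff 1 = 0 := by
      have : (p %ₘ q).coeff 1 * (δ / 2) = 0 := by linarith
      rcases mul_eq_zero.1 this with h | h
      · exact h
      · linarith
    rw [h7] at h6
    have h8 : (p %ₘ q).coeff 0 = 0 := by linarith
    rw [h4, h7, h8]
    simp
  -- the square root at `z`
  obtain ⟨w, hw⟩ : ∃ w : ℂ, w ^ 2 = aeval z h := ⟨(aeval z h) ^ ((1 : ℂ) / 2), by
    rw [← Complex.cpow_nat_mul]
    norm_num⟩
  obtain ⟨α, β, hαβ⟩ : ∃ α β : ℝ, (α : ℂ) + (β : ℂ) * z = w := by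
    refine ⟨w.re - (w.im / (δ / 2)) * (-r / 2), w.im / (δ / 2), ?_⟩
    apply Complex.ext
    · simp only [Complex.add_re, Complex.mul_re, Complex.ofReal_re, Complex.ofReal_im, hzim, hzre]
      ring
    · simp only [Complex.add_im, Complex.mul_im, Complex.ofReal_re, Complex.ofReal_im, hzim, hzre]
      field_simp
      ring
  have hqr : q.eval r ≠ 0 := by
    have e : q.eval r = 3 * r ^ 2 + a := by
      rw [hqd]
      simp
      ring
    rw [e]
    intro h0
    nlinarith [sq_nonneg r]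
  set c : ℝ := (Real.sqrt (h.eval r) - (α + β * r)) / q.eval r with hc
  refine ⟨C α + C β * X + C c * q, ?_⟩
  have h1 : (X - C r) ∣ h - (C α + C β * X + C c * q) ^ 2 := by
    rw [dvd_iff_isRoot, IsRoot.def]
    have e : (C α + C β * X + C c * q).eval r = Real.sqrt (h.eval r) := by
      simp only [eval_add, eval_mul, eval_C, eval_X]
      rw [hc, div_mul_cancel₀ _ hqr]
      ring
    rw [eval_sub, eval_pow, e, Real.sq_sqrt hr, sub_self]
  have h2 : q ∣ h - (C α + C β * X + C c * q) ^ 2 := by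
    apply hdvd
    have e : aeval z (C α + C β * X + C c * q) = w := by
      rw [map_add, map_add, map_mul, map_mul, hqz, aeval_X, aeval_C, aeval_C, mul_zero, add_zero]
      exact hαβ
    rw [map_sub, map_pow, e, hw, sub_self]
  refine IsCoprime.mul_dvd ?_ h1 h2
  have hcop : IsCoprime (X - C r) q := by
    have hirr : Irreducible (X - C r) := irreducible_X_sub_C r
    rw [hirr.coprime_iff_not_dvd, dvd_iff_isRoot]
    exact hqr
  exact hcop

/-- The norm at a real place with one real zero. -/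
theorem norm_real {F L : Type} [Field F] [CharZero F] [Field L] [Algebra F L]
    [FiniteDimensional F L] (σ : F →+* ℝ) {θ : L} (htop : Algebra.adjoin F {θ} = ⊤)
    (h3 : Module.finrank F L = 3) {r : ℝ} {φ : L →+* ℝ} (hφ : φ.comp (algebraMap F L) = σ)
    (hr : φ θ = r) (huniq : ∀ τ : L →+* ℂ, τ.comp (algebraMap F L) = (algebraMap ℝ ℂ).comp σ →
      (τ θ).im = 0 → τ θ = (r : ℂ)) (y : L) (hy : y ≠ 0)
    (hsq : IsSquare (Algebra.norm F y)) : 0 < φ y := by
  letI : Algebra F ℂ := ((algebraMap ℝ ℂ).comp σ).toAlgebra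
  have halg : algebraMap F ℂ = (algebraMap ℝ ℂ).comp σ := rfl
  haveI : Algebra.IsSeparable F L := inferInstance
  have hprod := Algebra.norm_eq_prod_embeddings F ℂ y
  -- the real embedding
  let τ₀ : L →ₐ[F] ℂ := ⟨(algebraMap ℝ ℂ).comp φ, fun c => by
    show (algebraMap ℝ ℂ) (φ (algebraMap F L c)) = (algebraMap ℝ ℂ) (σ c)
    rw [← hφ]
    rfl⟩
  have hτ₀ : ∀ x : L, τ₀ x = (φ x : ℂ) := fun x => rfl
  let cj : (L →ₐ[F] ℂ) → (L →ₐ[F] ℂ) := fun τ => ⟨(starRingEnd ℂ).comp τ.toRingHom, fun c => by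
    show starRingEnd ℂ (τ (algebraMap F L c)) = (algebraMap ℝ ℂ) (σ c)
    rw [τ.commutes, halg]
    exact Complex.conj_ofReal _⟩
  have hcj : ∀ (τ : L →ₐ[F] ℂ) (x : L), cj τ x = conj (τ x) := fun τ x => rfl
  have hext : ∀ τ τ' : L →ₐ[F] ℂ, τ θ = τ' θ → τ = τ' := by
    intro τ τ' h
    apply AlgHom.ext_of_adjoin_eq_top htop
    intro x hx
    rw [Set.mem_singleton_iff] at hx
    rw [hx]
    exact h
  have hreal : ∀ τ : L →ₐ[F] ℂ, cj τ = τ → τ = τ₀ := by
    intro τ h
    apply hext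
    have h1 : conj (τ θ) = τ θ := by
      rw [← hcj, h]
    rw [Complex.conj_eq_iff_im] at h1
    have h2 := huniq τ.toRingHom (by
      rw [← halg]
      exact τ.comp_algebraMap) h1
    rw [hτ₀, hr]
    exact h2
  have hcard : Fintype.card (L →ₐ[F] ℂ) = 3 := by rw [AlgHom.card, h3]
  have hne : (Finset.univ.erase τ₀).Nonempty := by
    rw [← Finset.card_pos, Finset.card_erase_of_mem (Finset.mem_univ _), Finset.card_univ, hcard]
    norm_num
  obtain ⟨τ₁, hτ₁⟩ := hne
  have h10 : τ₁ ≠ τ₀ := (Finset.mem_erase.1 hτ₁).1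
  have h11 : cj τ₁ ≠ τ₁ := fun h => h10 (hreal τ₁ h)
  have hcc : ∀ τ, cj (cj τ) = τ := fun τ => by
    ext x
    rw [hcj, hcj, Complex.conj_conj]
  have h00 : cj τ₀ = τ₀ := by
    ext x
    rw [hcj, hτ₀, Complex.conj_ofReal]
  have h12 : cj τ₁ ≠ τ₀ := by
    intro h
    apply h10
    rw [← hcc τ₁, h, h00]
  have hset : (Finset.univ : Finset (L →ₐ[F] ℂ)) = {τ₀, τ₁, cj τ₁} := by
    symm
    rw [← Finset.card_eq_iff_eq_univ, hcard]
    rw [Finset.card_insert_of_notMem, Finset.card_insert_of_notMem, Finset.card_singleton]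
    · rw [Finset.mem_singleton]
      exact h11.symm
    · rw [Finset.mem_insert, Finset.mem_singleton]
      rintro (h | h)
      · exact h10 h.symm
      · exact h12 h.symm
  have hval : algebraMap F ℂ (Algebra.norm F y) = ((φ y * Complex.normSq (τ₁ y) : ℝ) : ℂ) := by
    rw [hprod, hset, Finset.prod_insert, Finset.prod_insert, Finset.prod_singleton, hτ₀, hcj,
      Complex.mul_conj]
    · push_cast
      ring
    · rw [Finset.mem_singleton]
      exact h11.symm
    · rw [Finset.mem_insert, Finset.mem_singleton]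
      rintro (h | h)
      · exact h10 h.symm
      · exact h12 h.symm
  have hval2 : σ (Algebra.norm F y) = φ y * Complex.normSq (τ₁ y) := by
    have : ((σ (Algebra.norm F y) : ℝ) : ℂ) = ((φ y * Complex.normSq (τ₁ y) : ℝ) : ℂ) := by
      rw [← hval]
      rfl
    exact_mod_cast this
  obtain ⟨c, hc⟩ := hsq
  have hn0 : Algebra.norm F y ≠ 0 := by
    rw [Ne, Algebra.norm_eq_zero_iff]
    exact hy
  have hc0 : σ c ≠ 0 := by
    intro h
    apply hn0
    rw [hc, (map_eq_zero σ).1 h, zero_mul]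
  have hpos : 0 < σ (Algebra.norm F y) := by
    rw [hc, map_mul]
    exact mul_self_pos.2 hc0
  have hns : 0 < Complex.normSq (τ₁ y) := by
    rw [Complex.normSq_pos]
    exact (_root_.map_ne_zero τ₁).2 hy
  rw [hval2] at hpos
  exact (mul_pos_iff_of_pos_right hns).1 hpos

/-- No condition at a real place with one real zero. -/
theorem freeR {F : Type} [Field F] [NumberField F] (a b : F)
    (hirr : Irreducible (X ^ 3 + C a * X + C b : F[X])) (σ : F →+* ℝ)
    (hσ : 0 < σ (4 * a ^ 3 + 27 * b ^ 2)) : FreeR (X ^ 3 + C a * X + C b : F[X]) σ := by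
  intro h hcop hnorm
  have hm : (X ^ 3 + C a * X + C b : F[X]).Monic := by monicity!
  have hnd : (X ^ 3 + C a * X + C b : F[X]).natDegree = 3 := by compute_degree!
  have hdisc : 0 < 4 * (σ a) ^ 3 + 27 * (σ b) ^ 2 := by
    rw [map_add, map_mul, map_mul, map_pow, map_pow, map_ofNat, map_ofNat] at hσ
    exact hσ
  obtain ⟨r, hr⟩ := real_exists (σ a) (σ b)
  haveI hfact : Fact (Irreducible (X ^ 3 + C a * X + C b : F[X])) := ⟨hirr⟩
  haveI : FiniteDimensional F (AdjoinRoot (X ^ 3 + C a * X + C b : F[X])) := hm.finite_adjoinRoot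
  have hev : eval₂ σ r (X ^ 3 + C a * X + C b : F[X]) = 0 := by
    rw [eval₂_add, eval₂_add, eval₂_mul, eval₂_C, eval₂_C, eval₂_X, eval₂_X_pow]
    exact hr
  have hroot := AdjoinRoot.isRoot_root (X ^ 3 + C a * X + C b : F[X])
  -- the real embedding
  let φ : AdjoinRoot (X ^ 3 + C a * X + C b : F[X]) →+* ℝ := AdjoinRoot.lift σ r hev
  have hφ : φ.comp (algebraMap F _) = σ := by
    ext x
    exact AdjoinRoot.lift_of hev
  have hφr : φ (AdjoinRoot.root _) = r := AdjoinRoot.lift_root hev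
  have hφh : φ (AdjoinRoot.mk _ h) = (h.map σ).eval r := by
    rw [eval_map]
    exact AdjoinRoot.lift_mk hev h
  have hfin : Module.finrank F (AdjoinRoot (X ^ 3 + C a * X + C b : F[X])) = 3 := by
    rw [(AdjoinRoot.powerBasis hm.ne_zero).finrank, AdjoinRoot.powerBasis_dim, hnd]
  have hne : AdjoinRoot.mk (X ^ 3 + C a * X + C b : F[X]) h ≠ 0 := by
    rw [Ne, AdjoinRoot.mk_eq_zero]
    intro hd
    exact hirr.not_isUnit (hcop.isUnit_of_dvd' hd dvd_rfl)
  have hpos : 0 < φ (AdjoinRoot.mk _ h) := by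
    refine norm_real σ (AdjoinRoot.adjoinRoot_eq_top) hfin hφ hφr ?_ _ hne hnorm
    intro τ hτ him
    obtain ⟨x, hx⟩ : ∃ x : ℝ, τ (AdjoinRoot.root _) = (x : ℂ) :=
      ⟨(τ (AdjoinRoot.root _)).re, (Complex.ext rfl (by simpa using him))⟩
    have h1 : x ^ 3 + σ a * x + σ b = 0 := by
      have h2 : eval₂ (τ.comp (algebraMap F _)) (τ (AdjoinRoot.root _))
          (X ^ 3 + C a * X + C b : F[X]) = 0 := by
        rw [← hom_eval₂]
        have h3 : eval₂ (algebraMap F (AdjoinRoot (X ^ 3 + C a * X + C b : F[X])))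
            (AdjoinRoot.root _) (X ^ 3 + C a * X + C b : F[X]) = 0 := AdjoinRoot.eval₂_root _
        rw [h3, map_zero]
      rw [hτ, hx, eval₂_add, eval₂_add, eval₂_mul, eval₂_C, eval₂_C, eval₂_X, eval₂_X_pow] at h2
      have h4 : ((x ^ 3 + σ a * x + σ b : ℝ) : ℂ) = 0 := by
        push_cast
        exact h2
      exact_mod_cast h4
    rw [hx, real_unique hdisc h1 hr]
  rw [hφh] at hpos
  have hmap : (X ^ 3 + C a * X + C b : F[X]).map σ =
      (X - C r) * (X ^ 2 + C r * X + C (r ^ 2 + σ a)) := by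
    have e : (X ^ 3 + C a * X + C b : F[X]).map σ = X ^ 3 + C (σ a) * X + C (σ b) := by
      simp
    rw [e]
    have hb : σ b = -(r ^ 3 + σ a * r) := by linarith
    rw [hb]
    simp only [map_neg, map_add, map_mul, map_pow]
    ring
  have hq : 3 * r ^ 2 + 4 * σ a > 0 := by
    have hb : σ b = -(r ^ 3 + σ a * r) := by linarith
    rw [hb] at hdisc
    have e : 4 * (σ a) ^ 3 + 27 * (-(r ^ 3 + σ a * r)) ^ 2 =
        (3 * r ^ 2 + 4 * σ a) * (3 * r ^ 2 + σ a) ^ 2 := by ring
    rw [e] at hdisc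
    by_contra hcon
    have : (3 * r ^ 2 + 4 * σ a) * (3 * r ^ 2 + σ a) ^ 2 ≤ 0 :=
      mul_nonpos_of_nonpos_of_nonneg (not_lt.1 hcon) (sq_nonneg _)
    linarith
  obtain ⟨s, hs⟩ := exists_sq (h.map σ) hq hpos.le
  refine ⟨[], s, by simp, ?_⟩
  rw [hmap]
  simpa using hs

end Pool.Agent.Run7.h245.NF
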