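import Pool.Agent.N352.PF.Cnt
import Pool.Agent.N738.PJ.Exs

/-!
# A cubic polynomial which is irreducible modulo all prime ideals of small characteristic

After `N823/PF/Gf.lean` (helper823).
-/

set_option autoImplicit false
set_option linter.all false

open Polynomial NumberField IsDedekindDomain

namespace Pool.Agent.Run7.h245.NF

open Pool.Agent.N352.PF

/-- one finite field -/
theorem exists_irr3 (k : Type) [Field k] [Finite k] : ∃ f : k[X], f.Monic ∧
    f.natDegree = 3 ∧ f.coeff 2 = 0 ∧ Irreducible f := by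
  by_cases h : ((3 : ℕ) : k) = 0
  · have h3 : (3 : k) = 0 := by exact_mod_cast h
    -- `x ^ 3 - x` is not surjective
    have hni : ¬ Function.Surjective (fun x : k => x ^ 3 - x) := by
      intro hs
      have hinj := Finite.injective_iff_surjective.2 hs
      have h1 : (1 : k) = 0 := hinj (by simp)
      exact one_ne_zero h1
    rw [Function.Surjective] at hni
    push Not at hni
    obtain ⟨b, hb⟩ := hni
    have hdeg : (-X - C b : k[X]).degree < ((3 : ℕ) : WithBot ℕ) := by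
      refine lt_of_le_of_lt (degree_sub_le _ _) ?_
      rw [degree_neg, degree_X]
      refine max_lt (by exact_mod_cast (by norm_num : 1 < 3)) ?_
      exact lt_of_le_of_lt degree_C_le (by exact_mod_cast (by norm_num : 0 < 3))
    have hm : (X ^ 3 + (-X - C b) : k[X]).Monic := monic_X_pow_add hdeg
    have hnd : (X ^ 3 + (-X - C b) : k[X]).natDegree = 3 := by
      rw [natDegree_add_eq_left_of_degree_lt (by rw [degree_X_pow]; exact hdeg), natDegree_X_pow]
    refine ⟨X ^ 3 + (-X - C b), hm, hnd, ?_, ?_⟩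
    · rw [coeff_add, coeff_X_pow, coeff_sub, coeff_neg, coeff_X, coeff_C]
      norm_num
    · rw [hm.irreducible_iff_roots_eq_zero_of_degree_le_three (by rw [hnd]; norm_num)
        (by rw [hnd])]
      rw [Multiset.eq_zero_iff_forall_notMem]
      intro x hx
      rw [mem_roots hm.ne_zero, IsRoot.def, eval_add, eval_pow, eval_X, eval_sub, eval_neg, eval_X,
        eval_C] at hx
      refine hb x ?_
      linear_combination hx
  · obtain ⟨r, h1, h2, h3, h4⟩ := Pool.Agent.N738.PJ.exists_irr0 k 3 (by omega) h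
    exact ⟨r, h1, h3, by simpa using h4, h2⟩

/-- one prime ideal -/
theorem exists_v3 (F : Type) [Field F] [NumberField F] (v : HeightOneSpectrum (𝓞 F)) :
    ∃ f : (𝓞 F ⧸ v.asIdeal)[X], f.Monic ∧ f.natDegree = 3 ∧ f.coeff 2 = 0 ∧ Irreducible f ∧
      f.Separable := by
  have hmax : v.asIdeal.IsMaximal := v.isMaximal
  letI : Field (𝓞 F ⧸ v.asIdeal) := Ideal.Quotient.field v.asIdeal
  have hfin : Finite (𝓞 F ⧸ v.asIdeal) := Ideal.finiteQuotientOfFreeOfNeBot v.asIdeal v.ne_bot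
  obtain ⟨f, h1, h2, h3, h4⟩ := exists_irr3 (𝓞 F ⧸ v.asIdeal)
  exact ⟨f, h1, h2, h3, h4, PerfectField.separable_of_irreducible h4⟩

/-- The polynomial. -/
theorem gf1 (F : Type) [Field F] [NumberField F] (M : ℕ) :
    ∃ (W : ℕ) (f₁ : (𝓞 F)[X]), f₁.Monic ∧ f₁.natDegree = 2 * 1 + 1 ∧
      f₁.coeff (2 * 1) = 0 ∧ 0 < W ∧
      2 ∣ W ∧ (∀ v : HeightOneSpectrum (𝓞 F), (2 : 𝓞 F) ∈ v.asIdeal → Irreducible (rv v f₁)) ∧
      (∀ v : HeightOneSpectrum (𝓞 F), (W : 𝓞 F) ∈ v.asIdeal → (rv v f₁).Separable) ∧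
      (∀ p : ℕ, p.Prime → p ≤ M → p ∣ W) ∧
      ∀ v : HeightOneSpectrum (𝓞 F), (W : 𝓞 F) ∈ v.asIdeal → Irreducible (rv v f₁) := by
  classical
  set W : ℕ := primorial (max M 2) with hW
  have hWp : ∀ p : ℕ, p.Prime → p ≤ max M 2 → p ∣ W := fun p hp h =>
    (hp.dvd_primorial_iff).mpr h
  have hW0 : 0 < W := primorial_pos _
  choose f hf1 hf2 hf3 hf4 hf5 using exists_v3 F
  have hWne : Ideal.span {(W : 𝓞 F)} ≠ 0 := by
    rw [Ne, Ideal.zero_eq_bot, Ideal.span_singleton_eq_bot]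
    exact_mod_cast hW0.ne'
  have hfinS := Ideal.finite_factors hWne
  set T : Finset (HeightOneSpectrum (𝓞 F)) := hfinS.toFinset with hT
  have hmem : ∀ v : HeightOneSpectrum (𝓞 F), (W : 𝓞 F) ∈ v.asIdeal → v ∈ T := by
    intro v hv
    rw [hT, Set.Finite.mem_toFinset, Set.mem_setOf_eq, Ideal.dvd_span_singleton]
    exact hv
  have hcrt : ∀ j : ℕ, ∃ a : 𝓞 F, ∀ v ∈ T, Ideal.Quotient.mk v.asIdeal a = (f v).coeff j := by
    intro j
    have hx : ∀ v : HeightOneSpectrum (𝓞 F), ∃ x : 𝓞 F,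
        Ideal.Quotient.mk v.asIdeal x = (f v).coeff j := fun v =>
      Ideal.Quotient.mk_surjective _
    choose x hx using hx
    obtain ⟨a, ha⟩ := IsDedekindDomain.exists_forall_sub_mem_ideal (s := T)
      (fun v => v.asIdeal) (fun _ => 1) (fun v _ => v.prime)
      (fun v _ w _ hvw h => hvw (HeightOneSpectrum.ext h)) (fun v => x v)
    refine ⟨a, fun v hv => ?_⟩
    have h1 := ha v hv
    rw [pow_one] at h1
    rw [← hx v]
    exact (Ideal.Quotient.mk_eq_mk_iff_sub_mem _ _).2 h1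
  choose a ha using hcrt
  set P : (𝓞 F)[X] := ∑ i ∈ Finset.range 2, C (a i) * X ^ i with hP
  have hPd : P.degree < ((2 : ℕ) : WithBot ℕ) := by
    rw [hP]
    refine lt_of_le_of_lt (degree_sum_le _ _) ?_
    rw [Finset.sup_lt_iff (WithBot.bot_lt_coe _)]
    intro i hi
    refine lt_of_le_of_lt (degree_C_mul_X_pow_le _ _) ?_
    exact_mod_cast Finset.mem_range.mp hi
  have hPd2 : P.degree < ((3 : ℕ) : WithBot ℕ) :=
    hPd.trans (by exact_mod_cast (by omega : 2 < 3))
  have hnd : (X ^ 3 + P).natDegree = 3 := by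
    rw [natDegree_add_eq_left_of_degree_lt (by rw [degree_X_pow]; exact hPd2), natDegree_X_pow]
  have hmap : ∀ v ∈ T, rv v (X ^ 3 + P) = f v := by
    intro v hv
    conv_rhs => rw [(hf1 v).as_sum, hf2 v]
    rw [rv, Polynomial.map_add, Polynomial.map_pow, map_X, hP, Polynomial.map_sum]
    congr 1
    rw [Finset.sum_range_succ _ 2, hf3 v, C_0, zero_mul, add_zero]
    refine Finset.sum_congr rfl fun i _ => ?_
    rw [Polynomial.map_mul, map_C, Polynomial.map_pow, map_X, ha i v hv]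
  have h2W : 2 ∣ W := hWp 2 Nat.prime_two (le_max_right _ _)
  refine ⟨W, X ^ 3 + P, monic_X_pow_add hPd2, hnd, ?_, hW0, h2W, ?_, ?_,
    fun p hp hpM => hWp p hp (hpM.trans (le_max_left _ _)), ?_⟩
  · rw [coeff_add, coeff_X_pow, if_neg (by omega), coeff_eq_zero_of_degree_lt hPd, add_zero]
  · intro v hv
    have hWv : (W : 𝓞 F) ∈ v.asIdeal := by
      obtain ⟨m, hm⟩ := h2W
      rw [hm, Nat.cast_mul, Nat.cast_ofNat]
      exact Ideal.mul_mem_right _ _ hv
    rw [hmap v (hmem v hWv)]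
    exact hf4 v
  · intro v hv
    rw [hmap v (hmem v hv)]
    exact hf5 v
  · intro v hv
    rw [hmap v (hmem v hv)]
    exact hf4 v

end Pool.Agent.Run7.h245.NF
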