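import Pool.Agent.Run7.h245.NF.Alw
import Pool.Agent.Run7.h245.NF.Gf
import Pool.Agent.Run7.h245.NF.Main
import Pool.Agent.N783.PF.Final

/-!
# The theorem over every number field, for all allowed extensions at once
-/

set_option autoImplicit false
set_option linter.all false

open Polynomial IsDedekindDomain WithZero NumberField
open scoped Classical

namespace Pool.Agent.Run7.h245.NF

open Pool.Agent.N783.PF
open Pool.Agent.N61.PF
open Pool.Agent.N874.PP (sW)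
open Pool.Agent.TH115.GD (Pt)
open Pool.Agent.N874.QM (SelC ShaC SelM)
open Pool.Agent.N352.PJ (dd)

variable {F : Type} [Field F] [NumberField F]

/-- The property of the polynomials which we count. -/
structure QQ (K₀ : Type) [Field K₀] [NumberField K₀] [Algebra F K₀] (f : (𝓞 F)[X]) : Prop where
  irr : Irreducible (fF f)
  min : Min 1 f
  alw : Alw K₀ (f.coeff 1) (f.coeff 0)
  sel : ∀ (K : Type) [Field K] [NumberField K] [Algebra F K] [IsGalois F K] (n : ℕ),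
    Module.finrank F K = 2 ^ n → Alw K (f.coeff 1) (f.coeff 0) →
    SelM K ((fF f).map (algebraMap F K))

/-- A positive proportion of all polynomials. -/
theorem mainNF (F : Type) [Field F] [NumberField F] (K₀ : Type) [Field K₀] [NumberField K₀]
    [Algebra F K₀] (h2 : ∀ w : HeightOneSpectrum (𝓞 F), (2 : 𝓞 F) ∈ w.asIdeal →
      Nonempty (K₀ →ₐ[F] w.adicCompletion F))
    (hR : ∀ σ : F →+* ℝ, ∃ ρ : K₀ →+* ℝ, ρ.comp (algebraMap F K₀) = σ) :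
    ∃ c : ℝ, 0 < c ∧ ∃ B₀ : ℕ, ∀ B ≥ B₀, {f : (𝓞 F)[X] | Ht 1 B f}.Finite ∧
      c * ({f : (𝓞 F)[X] | Ht 1 B f}.ncard : ℝ) ≤
        ({f : (𝓞 F)[X] | Ht 1 B f ∧ QQ K₀ f}.ncard : ℝ) := by
  obtain ⟨κ, htw⟩ := twU sqf Pool.Agent.N667.PF.irr Pool.Agent.N667.PF.gen core
    Pool.Agent.N547.PF.min int (Pool.Agent.N426.PF.pin int) (Pool.Agent.N426.PF.par int)
    (Pool.Agent.N426.PF.parq int exq) (Pool.Agent.N459.PF.ram int) csq exq
    Pool.Agent.N459.PF.lie 1 F le_rfl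
  refine mainQ Pool.Agent.N490.PF.pts bad F 1 le_rfl (QQ K₀)
    (fun W f₁ => (∀ p : ℕ, p.Prime → p ≤ (discr K₀).natAbs → p ∣ W) ∧
      ∀ v : HeightOneSpectrum (𝓞 F), (W : 𝓞 F) ∈ v.asIdeal →
        Irreducible (Pool.Agent.N352.PF.rv v f₁))
    (fun S => ∀ q ∈ S, q.Prime ∧ ∀ w : HeightOneSpectrum (𝓞 F), (q : 𝓞 F) ∈ w.asIdeal →
      Nonempty (K₀ →ₐ[F] w.adicCompletion F)) ?_ ?_ κ ?_
  · intro K
    obtain ⟨W, f₁, hKW, hf₁, hΨ, hp, c, hc, hfam⟩ := fam1 Pool.Agent.N352.PF.bxT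
      (Pool.Agent.N352.PF.SML99.sml Pool.Agent.N75.PF.cu Pool.Agent.N352.PF.bxT
        Pool.Agent.N189.PF.ld Pool.Agent.N195.PF.pr Pool.Agent.N195.PF.pf)
      Pool.Agent.N935.PF.WK.wk
      (Pool.Agent.N352.PF.STR331.str Pool.Agent.N75.PF.cu Pool.Agent.N364.PF.cl
        Pool.Agent.N195.PF.pf)
      Pool.Agent.N195.PF.dscp Pool.Agent.N195.PF.pf F 1
      (fun W f₁ => ∀ v : HeightOneSpectrum (𝓞 F), (W : 𝓞 F) ∈ v.asIdeal →
        Irreducible (Pool.Agent.N352.PF.rv v f₁)) (gf1 F) le_rfl (max K (discr K₀).natAbs)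
    exact ⟨W, f₁, (le_max_left _ _).trans hKW, hf₁,
      ⟨fun p h1 h2 => hp p h1 (h2.trans (le_max_right _ _)), hΨ⟩, c, hc, hfam⟩
  · intro W m
    obtain ⟨S, 𝔮, h, P, h1, h2, h3⟩ := exs F 1 W le_rfl K₀ m
    exact ⟨S, 𝔮, h, P, h1, h2, fun q hq => ⟨(h1 q hq).1, h3 q hq⟩⟩
  · intro B N W f₁ S 𝔮 r P f hW hf₁ hΨ hS hΦ hF hBN hB hnb
    obtain ⟨hsq, J, hJ, hirr, hmin, hsel⟩ := htw B N W f₁ S 𝔮 r P f hW hf₁ hS hF hBN hB hnb
    have hfe := eq_pol hF.ht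
    have hc1 : (f.scaleRoots ((Dp J : ℕ) : 𝓞 F)).coeff 1 =
        f.coeff 1 * ((Dp J : ℕ) : 𝓞 F) ^ 2 := by
      conv_lhs => rw [hfe, scale_pol, pol_coeff1]
    have hc0 : (f.scaleRoots ((Dp J : ℕ) : 𝓞 F)).coeff 0 =
        f.coeff 0 * ((Dp J : ℕ) : 𝓞 F) ^ 3 := by
      conv_lhs => rw [hfe, scale_pol, pol_coeff0]
    have hsq' : SqF 1 (pol (f.coeff 1) (f.coeff 0)) := by rw [← hfe]; exact hsq
    refine ⟨J, hJ, hirr, hmin, ?_, ?_⟩
    · rw [hc1, hc0]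
      exact alw_fam h2 hR hΨ.1 hΨ.2 hΦ hJ hsq' (by rw [← hfe]; exact hF)
    · intro K _ _ _ _ n hn hA
      rw [hc1, hc0] at hA
      refine hsel K n hn ?_ ?_
      · have := alF_of hsq' hA
        rwa [← hfe] at this
      · have h9 : Irreducible (fD (pol (f.coeff 1) (f.coeff 0)) (Dp J)) := by
          rw [← hfe]; exact hirr
        have := alR_of h9 hA
        rwa [← hfe] at this

/-- Trivial 2-Selmer group, no 2-part in the Tate-Shafarevich group, finitely many points over `K`. -/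
structure GoodK (K : Type) [Field K] [NumberField K] [Algebra F K] (p : 𝓞 F × 𝓞 F) : Prop where
  sel : SelC (sW (algebraMap F K (p.1 : F)) (algebraMap F K (p.2 : F)))
  sha : ShaC (sW (algebraMap F K (p.1 : F)) (algebraMap F K (p.2 : F)))
  fin : Finite (Pt (sW (algebraMap F K (p.1 : F)) (algebraMap F K (p.2 : F))) K)
  odd : Odd (Nat.card (Pt (sW (algebraMap F K (p.1 : F)) (algebraMap F K (p.2 : F))) K))

theorem goodK_of {K : Type} [Field K] [NumberField K] [Algebra F K] {n : ℕ}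
    (hn : Module.finrank F K = 2 ^ n) {B : ℕ} {f : (𝓞 F)[X]} (h : Ht 1 B f)
    (hirr : Irreducible (fF f)) (hsel : SelM K ((fF f).map (algebraMap F K))) :
    GoodK K (f.coeff 1, f.coeff 0) := by
  have hd : 4 * (algebraMap F K ((f.coeff 1 : 𝓞 F) : F)) ^ 3 +
      27 * (algebraMap F K ((f.coeff 0 : 𝓞 F) : F)) ^ 2 ≠ 0 := by
    have h1 := hirr
    rw [fF_eq h] at h1
    have h2 := disc_ne h1
    intro h3
    apply h2
    apply (algebraMap F K).injective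
    rw [map_zero, ← h3]
    simp only [map_add, map_mul, map_pow, map_ofNat]
  have hm : (fF f).Monic := h.mon.map _
  haveI : FiniteDimensional F K := Module.finite_of_finrank_pos (by rw [hn]; positivity)
  have hirrK : Irreducible ((fF f).map (algebraMap F K)) :=
    irr_up hn hirr hm (by rw [fF, h.mon.natDegree_map, h.deg]; exact ⟨1, rfl⟩)
  have e : (fF f).map (algebraMap F K) = X ^ 3 + C (algebraMap F K ((f.coeff 1 : 𝓞 F) : F)) * X +
      C (algebraMap F K ((f.coeff 0 : 𝓞 F) : F)) := by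
    rw [fF_eq h]
    simp
  rw [e] at hirrK hsel
  have hs := selc K _ _ hd hirrK hsel
  obtain ⟨hdiv, hsha⟩ := Pool.Agent.N713.QM.gfc K _ _ hd hs
  obtain ⟨hf, ho⟩ := Pool.Agent.N459.QM.finc K _ _ hd hdiv
  exact ⟨hs, hsha, hf, ho⟩

/-- The curves which we count. -/
def GoodAll (K₀ : Type) [Field K₀] [NumberField K₀] [Algebra F K₀] (p : 𝓞 F × 𝓞 F) : Prop :=
  Alw K₀ p.1 p.2 ∧ ∀ (K : Type) [Field K] [NumberField K] [Algebra F K] [IsGalois F K] (n : ℕ),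
    Module.finrank F K = 2 ^ n → Alw K p.1 p.2 → GoodK K p

theorem finNF (F : Type) [Field F] [NumberField F] (K₀ : Type) [Field K₀] [NumberField K₀]
    [Algebra F K₀] (h2 : ∀ w : HeightOneSpectrum (𝓞 F), (2 : 𝓞 F) ∈ w.asIdeal →
      Nonempty (K₀ →ₐ[F] w.adicCompletion F))
    (hR : ∀ σ : F →+* ℝ, ∃ ρ : K₀ →+* ℝ, ρ.comp (algebraMap F K₀) = σ) :
    ∃ c : ℝ, 0 < c ∧ ∃ Y₀ : ℝ,
    ∀ Y : ℝ, {p : 𝓞 F × 𝓞 F | Crv Y p}.Finite ∧ (Y₀ ≤ Y → 0 < {p : 𝓞 F × 𝓞 F | Crv Y p}.ncard ∧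
      c * ({p : 𝓞 F × 𝓞 F | Crv Y p}.ncard : ℝ) ≤
        ({p : 𝓞 F × 𝓞 F | Crv Y p ∧ GoodAll K₀ p}.ncard : ℝ)) := by
  obtain ⟨-, C, hC, hlow, hup⟩ := Pool.Agent.N490.PF.pts F
  obtain ⟨c, hc, B₀, hmain⟩ := mainNF F K₀ h2 hR
  set d := Module.finrank ℚ F with hd
  set B₁ : ℕ := max B₀ 1 with hB₁
  refine ⟨c / (C ^ 2 * (C ^ 2 * 2 ^ (6 * d + 2))), by positivity, 27 * (B₁ : ℝ) ^ 6, ?_⟩
  intro Y
  have hfin := crv_finite (F := F) Pool.Agent.N490.PF.pts Y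
  refine ⟨hfin, ?_⟩
  intro hY
  have hB₁1 : 1 ≤ B₁ := le_max_right _ _
  have hB₁r : (1 : ℝ) ≤ B₁ := by exact_mod_cast hB₁1
  have hY27 : 27 ≤ Y := by
    have : (1 : ℝ) ≤ (B₁ : ℝ) ^ 6 := one_le_pow₀ hB₁r
    linarith
  obtain ⟨B, hBB, hBY, hYB⟩ := exists_B B₁ Y hB₁1 hY
  have hB1 : 1 ≤ B := hB₁1.trans hBB
  obtain ⟨hfinH, hprop⟩ := hmain B ((le_max_left _ _).trans hBB)
  constructor
  · rw [Set.ncard_pos hfin]
    refine ⟨(1, 1), ⟨?_, ?_, ?_⟩⟩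
    · norm_num
    · intro 𝔭 hp _ hcon
      apply hp.ne_top
      rw [Ideal.eq_top_iff_one]
      exact Ideal.pow_le_self (by norm_num) hcon.1
    · intro σ
      constructor
      · simp; linarith
      · simp; linarith
  · have hu := crv_upper hC hup hB1 hYB
    have hl := ht_lower hC hlow hB1 hfinH
    rw [← hd] at hu hl
    have h5 : ({f : (𝓞 F)[X] | Ht 1 B f ∧ QQ K₀ f}.ncard : ℝ) ≤
        ({p : 𝓞 F × 𝓞 F | Crv Y p ∧ GoodAll K₀ p}.ncard : ℝ) := by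
      have h6 := Set.ncard_le_ncard_of_injOn (fun f : (𝓞 F)[X] => (f.coeff 1, f.coeff 0))
        (s := {f : (𝓞 F)[X] | Ht 1 B f ∧ QQ K₀ f})
        (t := {p : 𝓞 F × 𝓞 F | Crv Y p ∧ GoodAll K₀ p})
        (fun f hf => ⟨crv_of_ht hf.1 hf.2.irr hf.2.min hBY, hf.2.alw,
          fun K _ _ _ _ n hn hA => goodK_of hn hf.1 hf.2.irr (hf.2.sel K n hn hA)⟩)
        (by
          intro f hf f' hf' h
          have e := Prod.mk.injEq .. ▸ h
          rw [eq_pol hf.1, eq_pol hf'.1, e.1, e.2])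
        (hfin.subset fun p hp => hp.1)
      exact_mod_cast h6
    have hBd : 0 < (B : ℝ) ^ (5 * d) := by
      have : (0 : ℝ) < B := by exact_mod_cast hB1
      positivity
    have h7 : ({p : 𝓞 F × 𝓞 F | Crv Y p}.ncard : ℝ) ≤
        (C ^ 2 * 2 ^ (6 * d + 2)) * (C ^ 2 * ({f : (𝓞 F)[X] | Ht 1 B f}.ncard : ℝ)) :=
      hu.trans (mul_le_mul_of_nonneg_left hl (by positivity))
    calc c / (C ^ 2 * (C ^ 2 * 2 ^ (6 * d + 2))) * ({p : 𝓞 F × 𝓞 F | Crv Y p}.ncard : ℝ)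
        ≤ c / (C ^ 2 * (C ^ 2 * 2 ^ (6 * d + 2))) *
          ((C ^ 2 * 2 ^ (6 * d + 2)) * (C ^ 2 * ({f : (𝓞 F)[X] | Ht 1 B f}.ncard : ℝ))) :=
          mul_le_mul_of_nonneg_left h7 (by positivity)
      _ = c * ({f : (𝓞 F)[X] | Ht 1 B f}.ncard : ℝ) := by
          field_simp
      _ ≤ _ := hprop.trans h5

end Pool.Agent.Run7.h245.NF
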