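import Pool.Agent.Run7.h245.NF.Top
import Pool.Agent.N170.PF.Tw
import Pool.Agent.N874.QM.Stm

/-!
# The 2-Selmer group over all extensions `K` with local conditions is zero

`exists_field`, `irr_up` are copied from `N874/JM/Fld.lean` (helper874); the last part is after
`N170/PF/Tw.lean` (helper170).
-/

set_option autoImplicit false
set_option linter.all false

open Polynomial IsDedekindDomain WithZero NumberField
open scoped Classical IntermediateField

namespace Pool.Agent.Run7.h245.NF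

open Pool.Agent.N874.PP (Ev Sq1 U0)
open Pool.Agent.N783.PQ (LocIm)
open Pool.Agent.N874.JM (LocF)
open Pool.Agent.N874.QM (SelM)
open Pool.Agent.N783.PF
open Pool.Agent.N170.PF (LBad.mono irr_scale)

/-- Adjoining a zero of an irreducible polynomial. -/
theorem exists_field {M : Type} [Field M] {p : M[X]} (hp : Irreducible p) (hm : p.Monic) :
    ∃ (Ω : Type) (_ : Field Ω) (_ : Algebra M Ω) (t : Ω),
      aeval t p = 0 ∧ Module.finrank M Ω = p.natDegree ∧ M⟮t⟯ = ⊤ ∧ FiniteDimensional M Ω ∧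
      minpoly M t = p := by
  haveI hf : Fact (Irreducible p) := ⟨hp⟩
  haveI : FiniteDimensional M (AdjoinRoot p) := hm.finite_adjoinRoot
  have hr : Module.finrank M (AdjoinRoot p) = p.natDegree := by
    rw [(AdjoinRoot.powerBasis hm.ne_zero).finrank, AdjoinRoot.powerBasis_dim]
  have h0 : aeval (AdjoinRoot.root p) p = 0 := by
    rw [aeval_def]
    exact AdjoinRoot.eval₂_root _
  have hmin : minpoly M (AdjoinRoot.root p) = p :=
    (minpoly.eq_of_irreducible_of_monic hp h0 hm).symm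
  refine ⟨AdjoinRoot p, inferInstance, inferInstance, AdjoinRoot.root p, h0, hr, ?_, inferInstance,
    hmin⟩
  rw [Field.primitive_element_iff_minpoly_natDegree_eq, hmin, hr]

/-- A polynomial of odd degree which is irreducible over `K` is irreducible over an extension of
degree `2 ^ n`. -/
theorem irr_up {K M : Type} [Field K] [Field M] [Algebra K M] [FiniteDimensional K M] {n : ℕ}
    (hM : Module.finrank K M = 2 ^ n) {f : K[X]} (h : Irreducible f) (hm : f.Monic)
    (hodd : Odd f.natDegree) : Irreducible (f.map (algebraMap K M)) := by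
  have hnu : ¬ IsUnit (f.map (algebraMap K M)) := by
    intro hu
    have h1 := natDegree_eq_zero_of_isUnit hu
    rw [hm.natDegree_map] at h1
    rw [h1] at hodd
    exact absurd hodd (by decide)
  obtain ⟨p, hpm, hpi, hpd⟩ := exists_monic_irreducible_factor _ hnu
  obtain ⟨Ω, instF, instA, t, ht, hr, htop, hfin, hmin⟩ := exists_field hpi hpm
  letI : Algebra K Ω := ((algebraMap M Ω).comp (algebraMap K M)).toAlgebra
  haveI : IsScalarTower K M Ω := IsScalarTower.of_algebraMap_eq fun x => rfl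
  haveI : FiniteDimensional K Ω := FiniteDimensional.trans K M Ω
  have h1 : aeval t f = 0 := by
    obtain ⟨q, hq⟩ := hpd
    have h2 := congrArg (aeval t) hq
    rw [map_mul, ht, zero_mul, aeval_map_algebraMap] at h2
    exact h2
  have h2 : minpoly K t = f := (minpoly.eq_of_irreducible_of_monic h h1 hm).symm
  have h3 : (minpoly K t).natDegree ∣ Module.finrank K Ω :=
    minpoly.degree_dvd (Algebra.IsIntegral.isIntegral t)
  rw [h2, ← Module.finrank_mul_finrank K M Ω, hM, hr] at h3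
  have h4 : f.natDegree ∣ p.natDegree := by
    refine Nat.Coprime.dvd_of_dvd_mul_left ?_ h3
    exact (Nat.Coprime.pow_right n (Nat.coprime_two_right.2 hodd))
  have h5 : f.natDegree ≤ p.natDegree := Nat.le_of_dvd hpi.natDegree_pos h4
  have h6 : f.map (algebraMap K M) = p := by
    refine eq_of_monic_of_dvd_of_natDegree_le hpm (hm.map _) hpd ?_
    rw [hm.natDegree_map]
    exact h5
  rw [h6]
  exact hpi

/-- An isomorphism with the field generated by a zero. -/
theorem adj_equiv {K Ω : Type} [Field K] [Field Ω] [Algebra K Ω] [FiniteDimensional K Ω] {p : K[X]}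
    (hp : Irreducible p) (hm : p.Monic) {Θ : Ω} (h0 : aeval Θ p = 0)
    (hr : Module.finrank K Ω = p.natDegree) :
    minpoly K Θ = p ∧ (∀ x : Ω, ∃ h : K[X], aeval Θ h = x) ∧
    ∃ e : AdjoinRoot p ≃ₐ[K] Ω, ∀ q : K[X], e (AdjoinRoot.mk p q) = aeval Θ q := by
  haveI hfact' : Fact (Irreducible p) := ⟨hp⟩
  obtain ⟨φ, hφ⟩ : ∃ φ : AdjoinRoot p →ₐ[K] Ω,
    φ = AdjoinRoot.liftAlgHom p (Algebra.ofId K _) Θ h0 := ⟨_, rfl⟩
  have hφmk : ∀ q : K[X], φ (AdjoinRoot.mk p q) = aeval Θ q := by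
    intro q
    have h1 := AdjoinRoot.liftAlgHom_mk p (Algebra.ofId K Ω) Θ h0 q
    rw [Algebra.toRingHom_ofId, ← Polynomial.aeval_def] at h1
    rw [hφ]
    exact h1
  have hφinj : Function.Injective φ := φ.toRingHom.injective
  haveI : FiniteDimensional K (AdjoinRoot p) := hm.finite_adjoinRoot
  have hrk : Module.finrank K (AdjoinRoot p) = Module.finrank K Ω := by
    rw [hr, (AdjoinRoot.powerBasis hm.ne_zero).finrank, AdjoinRoot.powerBasis_dim]
  have hφsurj : Function.Surjective φ :=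
    (LinearMap.injective_iff_surjective_of_finrank_eq_finrank (f := φ.toLinearMap) hrk).1 hφinj
  refine ⟨(minpoly.eq_of_irreducible_of_monic hp h0 hm).symm, ?_,
    AlgEquiv.ofBijective φ ⟨hφinj, hφsurj⟩, hφmk⟩
  intro x
  obtain ⟨z, rfl⟩ := hφsurj x
  obtain ⟨s, rfl⟩ := AdjoinRoot.mk_surjective z
  exact ⟨s, (hφmk s).symm⟩

theorem ne_of_coprime {K Ω : Type} [Field K] [Field Ω] [Algebra K Ω] {Θ : Ω} {p h : K[X]}
    (h0 : aeval Θ p = 0) (hc : IsCoprime h p) : aeval Θ h ≠ 0 := by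
  intro h1
  obtain ⟨u, v, huv⟩ := hc
  have := congrArg (aeval Θ) huv
  rw [map_add, map_mul, map_mul, h0, h1, mul_zero, mul_zero, add_zero, map_one] at this
  exact zero_ne_one this

section

variable {F : Type} [Field F] [NumberField F]

/-- The conditions at the finite places. -/
def AlF (K : Type) [Field K] [NumberField K] [Algebra F K] (f : (𝓞 F)[X]) (D : ℕ) : Prop :=
  ∀ w : HeightOneSpectrum (𝓞 F), Nonempty (K →ₐ[F] w.adicCompletion F) ∨
    ((2 : 𝓞 F) ∉ w.asIdeal ∧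
      ((UnrOver K w ∧ (D : 𝓞 F) ∉ w.asIdeal) ∨ Irreducible (rd w.asIdeal f)))

/-- There is no condition at the real place `σ`. -/
def FreeR (f' : F[X]) (σ : F →+* ℝ) : Prop :=
  ∀ h : F[X], IsCoprime h f' → IsSquare (Algebra.norm F (AdjoinRoot.mk f' h)) →
    LocIm ℝ (f'.map σ) (h.map σ)

/-- The conditions at the real places. -/
def AlR (K : Type) [Field K] [NumberField K] [Algebra F K] (f' : F[X]) : Prop :=
  ∀ σ : F →+* ℝ, (∃ ρ : K →+* ℝ, ρ.comp (algebraMap F K) = σ) ∨ FreeR f' σ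

end

/-- The twist without 2-Selmer group over all `K` at once. -/
theorem twU (h1 : S_SQF) (h2 : S_IRR) (h3 : S_GEN) (h4 : S_CORE) (h6 : S_MIN)
    (l1 : S_INT) (l2 : S_PIN) (l3 : S_PAR) (l4 : S_PARQ) (l5 : S_RAM) (l6 : S_CSQ)
    (l7 : S_EXQ) (l8 : S_LIE) (g : ℕ) (F : Type) [Field F] [NumberField F] (hg : 1 ≤ g) :
    ∃ κ : ℕ, ∀ (B N W : ℕ) (f₁ : (𝓞 F)[X]) (S : Finset ℕ) (𝔮 : ℕ → Ideal (𝓞 F))
      (r P : ℕ → (𝓞 F)[X]) (f : (𝓞 F)[X]), κ ≤ W → GoodF g W f₁ → GoodS g W S 𝔮 r P →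
      Fam g B W f₁ S P f → 2 ^ κ * B ≤ 4 ^ N → 1 ≤ B → ¬ LBad g N κ S 𝔮 P f →
      SqF g f ∧ ∃ J ⊆ S, Irreducible (fD f (Dp J)) ∧ Min g (f.scaleRoots ((Dp J : ℕ) : 𝓞 F)) ∧
      ∀ (K : Type) [Field K] [NumberField K] [Algebra F K] [IsGalois F K] (n : ℕ),
        Module.finrank F K = 2 ^ n → AlF K f (Dp J) → AlR K (fD f (Dp J)) →
        SelM K ((fD f (Dp J)).map (algebraMap F K)) := by
  obtain ⟨κ₁, hκ₁⟩ := h4 g F hg
  obtain ⟨κ₂, hκ₂⟩ := h1 g F hg
  refine ⟨max κ₁ κ₂, fun B N W f₁ S 𝔮 r P f hW hf₁ hS hF hBN hB hnb => ?_⟩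
  have hBN1 : 2 ^ κ₁ * B ≤ 4 ^ N :=
    (Nat.mul_le_mul_right _ (Nat.pow_le_pow_right (by norm_num) (le_max_left _ _))).trans hBN
  have hBN2 : 2 ^ κ₂ * B ≤ 4 ^ N :=
    (Nat.mul_le_mul_right _ (Nat.pow_le_pow_right (by norm_num) (le_max_right _ _))).trans hBN
  have hnb1 : ¬ LBad g N κ₁ S 𝔮 P f := fun h => hnb (LBad.mono (le_max_left _ _) h)
  have hnb2 : ¬ LBad g N κ₂ S 𝔮 P f := fun h => hnb (LBad.mono (le_max_right _ _) h)
  have hm := hF.ht.mon
  have hd := hF.ht.deg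
  have hirr : Irreducible (fF f) := h2 F g W f₁ f hf₁ hF.one hm hd
  have hsq : SqF g f := hκ₂ B N W f₁ S 𝔮 r P f ((le_max_right _ _).trans hW) hf₁ hS hF hirr hBN2
    hB hnb2
  obtain ⟨L, _, _, _, θ, hc⟩ := h3 F g f hm hd hirr
  obtain ⟨J, hJ, hcore⟩ := hκ₁ L f f₁ θ B N W S 𝔮 r P ((le_max_left _ _).trans hW) hc hsq hf₁ hS
    hF hBN1 hB hnb1
  have hD0 : Dp J ≠ 0 := by
    rw [Dp, Finset.prod_ne_zero_iff]
    exact fun q hq => (hS q (hJ hq)).1.ne_zero
  have hD0F : ((Dp J : ℕ) : F) ≠ 0 := Nat.cast_ne_zero.2 hD0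
  have hmD : (f.scaleRoots ((Dp J : ℕ) : 𝓞 F)).Monic := (monic_scaleRoots_iff _).2 hm
  have hmDF : (fD f (Dp J)).Monic := hmD.map _
  have hdDF : (fD f (Dp J)).natDegree = 2 * g + 1 := by
    rw [fD, fF, hmD.natDegree_map, natDegree_scaleRoots, hd]
  have hirrD : Irreducible (fD f (Dp J)) := by
    rw [fD, Pool.Agent.N170.PF.fF_scale hm]
    exact irr_scale hD0F hirr
  refine ⟨hsq, J, hJ, hirrD, h6 g W F S J 𝔮 r P f hg hS hsq hm hd hF.con hJ, ?_⟩
  intro K _ _ _ _ n hn hAF hAR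
  -- the field `Ω`
  have hmF : (fF f).Monic := hm.map _
  have hdF : (fF f).natDegree = 2 * g + 1 := by rw [fF, hm.natDegree_map, hd]
  have hirrK : Irreducible ((fF f).map (algebraMap F K)) :=
    irr_up hn hirr hmF (by rw [hdF]; exact ⟨g, rfl⟩)
  have hirrDK : Irreducible ((fD f (Dp J)).map (algebraMap F K)) :=
    irr_up hn hirrD hmDF (by rw [hdDF]; exact ⟨g, rfl⟩)
  obtain ⟨Ω, iF, iA, t, ht, hrk, htop, hfin, hmint⟩ := exists_field hirrK (hmF.map _)
  rw [hmF.natDegree_map, hdF] at hrk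
  letI : Algebra F Ω := ((algebraMap K Ω).comp (algebraMap F K)).toAlgebra
  haveI : IsScalarTower F K Ω := IsScalarTower.of_algebraMap_eq fun x => rfl
  haveI : CharZero Ω := charZero_of_injective_algebraMap (algebraMap K Ω).injective
  haveI : IsScalarTower ℚ K Ω := inferInstance
  haveI : FiniteDimensional ℚ Ω := FiniteDimensional.trans ℚ K Ω
  haveI : NumberField Ω := ⟨⟩
  have ht' : aeval t (minpoly F (Pool.Agent.N459.PF.pb hc).gen) = 0 := by
    have e : minpoly F (Pool.Agent.N459.PF.pb hc).gen = fF f := Pool.Agent.N459.PF.minp hc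
    rw [e]
    rw [aeval_map_algebraMap] at ht
    exact ht
  let φ : L →ₐ[F] Ω := (Pool.Agent.N459.PF.pb hc).lift t ht'
  letI : Algebra L Ω := φ.toRingHom.toAlgebra
  haveI : IsScalarTower F L Ω := IsScalarTower.of_algebraMap_eq fun x => (φ.commutes x).symm
  have hθ : algebraMap L Ω θ = t := (Pool.Agent.N459.PF.pb hc).lift_gen t ht'
  have hadj : Algebra.adjoin K {algebraMap L Ω θ} = ⊤ := by
    rw [hθ]
    have h1 : IsIntegral K t := Algebra.IsIntegral.isIntegral t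
    have h2 := IntermediateField.adjoin_simple_toSubalgebra_of_isAlgebraic h1.isAlgebraic
    rw [← h2, htop, IntermediateField.top_toSubalgebra]
  have hrootD := root_D (D := Dp J) hc
  have hrootDΩ : aeval (algebraMap L Ω (((Dp J : ℕ) : L) * θ))
      ((fD f (Dp J)).map (algebraMap F K)) = 0 := by
    rw [aeval_map_algebraMap, aeval_algebraMap_apply, hrootD, map_zero]
  obtain ⟨hmin, hsur, e, he⟩ := adj_equiv hirrDK (hmDF.map _) hrootDΩ
    (by rw [hrk, hmDF.natDegree_map, hdDF])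
  haveI : FiniteDimensional F L := Module.finite_of_finrank_pos (by rw [hc.rank]; omega)
  obtain ⟨hminL, hsurL, eL, heL⟩ := adj_equiv hirrD hmDF hrootD (by rw [hc.rank, hdDF])
  intro h hcop hnorm hloc hlocR
  have hne := ne_of_coprime hrootDΩ hcop
  have hnorm' : IsSquare (Algebra.norm K (aeval (algebraMap L Ω (((Dp J : ℕ) : L) * θ)) h)) := by
    rw [← he, Algebra.norm_eq_of_algEquiv]
    exact hnorm
  have hR : ∀ σ : F →+* ℝ, (∃ ρ : K →+* ℝ, ρ.comp (algebraMap F K) = σ) ∨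
      ∀ h : F[X], aeval (((Dp J : ℕ) : L) * θ) h ≠ 0 →
        IsSquare (Algebra.norm F (aeval (((Dp J : ℕ) : L) * θ) h)) →
        LocIm ℝ ((fD f (Dp J)).map σ) (h.map σ) := by
    intro σ
    rcases hAR σ with h9 | h9
    · exact Or.inl h9
    · refine Or.inr fun k hk hkN => h9 k ?_ ?_
      · rw [isCoprime_comm, hirrD.coprime_iff_not_dvd]
        rintro ⟨q, rfl⟩
        rw [map_mul, hrootD, zero_mul] at hk
        exact hk rfl
      · rw [← heL, Algebra.norm_eq_of_algEquiv] at hkN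
        exact hkN
  obtain ⟨y, hy⟩ := selK l1 l2 l3 l4 l5 l6 l7 l8 hg hc hsq hf₁ hS hF.one hF.con hJ rfl hcore hn hrk
    hadj hmin hsur hsurL hAF hR hne hnorm' hloc hlocR
  obtain ⟨s, rfl⟩ := hsur y
  refine ⟨s, ?_⟩
  rw [← AdjoinRoot.mk_eq_zero]
  apply e.injective
  rw [map_zero, he, map_sub, map_pow, sub_eq_zero, pow_two]
  exact hy

end Pool.Agent.Run7.h245.NF
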