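import Pool.Agent.N61.PF.Fin1
import Pool.Agent.N704.PJ.Hensel
import Pool.Agent.N352.PP.Loc

/-!
# Zeros of `x ^ 3 + a x + b` in the completions and the reduction of the polynomial
-/

set_option autoImplicit false
set_option linter.all false

open Polynomial IsDedekindDomain WithZero NumberField
open scoped Classical

namespace Pool.Agent.Run7.h245.NF

open Pool.Agent.N783.PF (rd fF Ht SqF dsc)
open Pool.Agent.N61.PF (pol pol_natDegree pol_monic pol_coeff0 pol_coeff1 pol_coeff2)
open Pool.Agent.N352.PP (vv vv_coe dense_R)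

variable {F : Type} [Field F] [NumberField F]

/-- The element of `F_w` defined by an integer. -/
noncomputable abbrev io (w : HeightOneSpectrum (𝓞 F)) (a : 𝓞 F) : w.adicCompletion F :=
  algebraMap F (w.adicCompletion F) (algebraMap (𝓞 F) F a)

theorem vv_io_le (w : HeightOneSpectrum (𝓞 F)) (a : 𝓞 F) : vv w (io w a) ≤ 1 := by
  rw [io, vv_coe]
  exact w.valuation_le_one a

theorem vv_io_lt (w : HeightOneSpectrum (𝓞 F)) (a : 𝓞 F) : vv w (io w a) < 1 ↔ a ∈ w.asIdeal := by
  rw [io, vv_coe, w.valuation_lt_one_iff_mem]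

theorem vv_io_eq (w : HeightOneSpectrum (𝓞 F)) {a : 𝓞 F} (h : a ∉ w.asIdeal) :
    vv w (io w a) = 1 :=
  le_antisymm (vv_io_le w a) (not_lt.1 fun h1 => h ((vv_io_lt w a).1 h1))

/-- A simple zero modulo `w` lifts. -/
theorem root_of_simple (w : HeightOneSpectrum (𝓞 F)) (f : (𝓞 F)[X]) (c : 𝓞 F)
    (h0 : f.eval c ∈ w.asIdeal) (h1 : (derivative f).eval c ∉ w.asIdeal) :
    ∃ z : w.adicCompletion F,
      (f.map ((algebraMap F (w.adicCompletion F)).comp (algebraMap (𝓞 F) F))).eval z = 0 := by
  obtain ⟨z, hz, -⟩ := Pool.Agent.N704.PJ.hensel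
    (f.map ((algebraMap F (w.adicCompletion F)).comp (algebraMap (𝓞 F) F)))
    (fun i => by rw [coeff_map]; exact vv_io_le w _) (a := io w c) (vv_io_le w c)
    (by
      have e : (f.map ((algebraMap F (w.adicCompletion F)).comp (algebraMap (𝓞 F) F))).eval
          (io w c) = io w (f.eval c) := by
        rw [eval_map]
        exact eval₂_hom ((algebraMap F (w.adicCompletion F)).comp (algebraMap (𝓞 F) F)) c
      rw [e]
      exact (vv_io_lt w _).2 h0)
    (by
      have e : (derivative (f.map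
          ((algebraMap F (w.adicCompletion F)).comp (algebraMap (𝓞 F) F)))).eval (io w c) =
          io w ((derivative f).eval c) := by
        rw [derivative_map, eval_map]
        exact eval₂_hom ((algebraMap F (w.adicCompletion F)).comp (algebraMap (𝓞 F) F)) c
      rw [e]
      exact vv_io_eq w h1)
  exact ⟨z, hz⟩

theorem eval_pol (a b c : 𝓞 F) : (pol a b).eval c = c ^ 3 + a * c + b := by
  unfold pol
  simp

theorem eval_der_pol (a b c : 𝓞 F) : (derivative (pol a b)).eval c = 3 * c ^ 2 + a := by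
  unfold pol
  simp
  exact Or.inl (by norm_num)

/-- If `x ^ 3 + a x + b` has no zero in `F_w` and squarefree discriminant, then it is irreducible
modulo `w`. -/
theorem irr_of_noroot (w : HeightOneSpectrum (𝓞 F)) (a b : 𝓞 F)
    (hd : 4 * a ^ 3 + 27 * b ^ 2 ∉ w.asIdeal ^ 2)
    (hr : ∀ x : w.adicCompletion F, x ^ 3 + io w a * x + io w b ≠ 0) :
    Irreducible (rd w.asIdeal (pol a b)) := by
  have hmax : w.asIdeal.IsMaximal := w.isMaximal
  letI : Field (𝓞 F ⧸ w.asIdeal) := Ideal.Quotient.field w.asIdeal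
  have hm : (rd w.asIdeal (pol a b)).Monic := (pol_monic a b).map _
  have hnd : (rd w.asIdeal (pol a b)).natDegree = 3 := by
    rw [rd, (pol_monic a b).natDegree_map, pol_natDegree]
  -- a simple zero gives a contradiction
  have key : ∀ c : 𝓞 F, c ^ 3 + a * c + b ∈ w.asIdeal → 3 * c ^ 2 + a ∈ w.asIdeal := by
    intro c hc
    by_contra hc'
    obtain ⟨z, hz⟩ := root_of_simple w (pol a b) c (by rw [eval_pol]; exact hc)
      (by rw [eval_der_pol]; exact hc')
    apply hr z
    rw [← hz]
    unfold pol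
    simp [io]
  rw [hm.irreducible_iff_roots_eq_zero_of_degree_le_three (by rw [hnd]; norm_num) (by rw [hnd])]
  rw [Multiset.eq_zero_iff_forall_notMem]
  intro x hx
  obtain ⟨c, rfl⟩ := Ideal.Quotient.mk_surjective x
  rw [mem_roots hm.ne_zero, IsRoot.def] at hx
  have hc : c ^ 3 + a * c + b ∈ w.asIdeal := by
    rw [← eval_pol, ← Ideal.Quotient.eq_zero_iff_mem]
    rw [rd, eval_map] at hx
    have e := eval₂_hom (Ideal.Quotient.mk w.asIdeal) c (p := pol a b)
    rw [← e]
    exact hx
  have hc2 := key c hc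
  have hc3 : (-2 * c) ^ 3 + a * (-2 * c) + b ∈ w.asIdeal := by
    have e : (-2 * c) ^ 3 + a * (-2 * c) + b =
        (c ^ 3 + a * c + b) - 3 * c * (3 * c ^ 2 + a) := by ring
    rw [e]
    exact Ideal.sub_mem _ hc (Ideal.mul_mem_left _ _ hc2)
  have hc4 := key _ hc3
  have hc5 : (3 * c) * (3 * c) ∈ w.asIdeal := by
    have e : (3 * c) * (3 * c) = (3 * (-2 * c) ^ 2 + a) - (3 * c ^ 2 + a) := by ring
    rw [e]
    exact Ideal.sub_mem _ hc4 hc2
  have hc6 : 3 * c ∈ w.asIdeal := (w.isPrime.mem_or_mem hc5).elim id id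
  have ha : a ∈ w.asIdeal := by
    have e : a = (3 * c ^ 2 + a) - c * (3 * c) := by ring
    rw [e]
    exact Ideal.sub_mem _ hc2 (Ideal.mul_mem_left _ _ hc6)
  apply hd
  have ha3 : 4 * a ^ 3 ∈ w.asIdeal ^ 2 := by
    have e : 4 * a ^ 3 = (4 * a) * a ^ 2 := by ring
    rw [e]
    exact Ideal.mul_mem_left _ _ (Ideal.pow_mem_pow ha 2)
  refine Ideal.add_mem _ ha3 ?_
  rcases w.isPrime.mem_or_mem hc6 with h3 | h3
  · have e : 27 * b ^ 2 = (3 * b ^ 2) * (3 : 𝓞 F) ^ 2 := by ring
    rw [e]
    exact Ideal.mul_mem_left _ _ (Ideal.pow_mem_pow h3 2)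
  · have hb : b ∈ w.asIdeal := by
      have e : b = (c ^ 3 + a * c + b) - (c ^ 2 + a) * c := by ring
      rw [e]
      exact Ideal.sub_mem _ hc (Ideal.mul_mem_left _ _ h3)
    exact Ideal.mul_mem_left _ _ (Ideal.pow_mem_pow hb 2)

/-- If `x ^ 3 + a x + b` is irreducible modulo `w`, then it has no zero in `F_w`. -/
theorem noroot_of_irr (w : HeightOneSpectrum (𝓞 F)) (a b : 𝓞 F)
    (hi : Irreducible (rd w.asIdeal (pol a b))) (x : w.adicCompletion F) :
    x ^ 3 + io w a * x + io w b ≠ 0 := by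
  intro hx
  have hmax : w.asIdeal.IsMaximal := w.isMaximal
  letI : Field (𝓞 F ⧸ w.asIdeal) := Ideal.Quotient.field w.asIdeal
  have hm : (rd w.asIdeal (pol a b)).Monic := (pol_monic a b).map _
  have hnd : (rd w.asIdeal (pol a b)).natDegree = 3 := by
    rw [rd, (pol_monic a b).natDegree_map, pol_natDegree]
  -- `x` is integral
  have hx1 : vv w x ≤ 1 := by
    by_contra hcon
    rw [not_le] at hcon
    have e : x ^ 3 = -(io w a * x + io w b) := by linear_combination hx
    have h1 : vv w (x ^ 3) ≤ vv w x := by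
      rw [e, Valuation.map_neg]
      refine (Valuation.map_add _ _ _).trans (max_le ?_ ?_)
      · rw [map_mul]
        calc vv w (io w a) * vv w x ≤ 1 * vv w x := mul_le_mul' (vv_io_le w a) le_rfl
          _ = vv w x := one_mul _
      · exact (vv_io_le w b).trans hcon.le
    rw [map_pow] at h1
    have h2 : vv w x < vv w x ^ 3 := lt_self_pow₀ hcon (by norm_num)
    exact absurd h1 (not_le.2 h2)
  obtain ⟨c, hc⟩ := dense_R w x hx1
  have hc' : vv w (x - io w c) < 1 := hc
  -- `c` is a zero modulo `w`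
  have hcm : c ^ 3 + a * c + b ∈ w.asIdeal := by
    rw [← vv_io_lt]
    have e : io w (c ^ 3 + a * c + b) =
        -((x - io w c) * (x ^ 2 + x * io w c + io w c ^ 2 + io w a)) := by
      have e1 : io w (c ^ 3 + a * c + b) = io w c ^ 3 + io w a * io w c + io w b := by
        simp [io]
      rw [e1]
      linear_combination hx
    rw [e, Valuation.map_neg, map_mul]
    have h3 : vv w (x ^ 2 + x * io w c + io w c ^ 2 + io w a) ≤ 1 := by
      have hcc := vv_io_le w c
      refine (Valuation.map_add _ _ _).trans (max_le ?_ (vv_io_le w a))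
      refine (Valuation.map_add _ _ _).trans (max_le ?_ ?_)
      · refine (Valuation.map_add _ _ _).trans (max_le ?_ ?_)
        · rw [map_pow]; exact pow_le_one' hx1 2
        · rw [map_mul]; exact mul_le_one' hx1 hcc
      · rw [map_pow]; exact pow_le_one' hcc 2
    calc _ ≤ vv w (x - io w c) * 1 := mul_le_mul' le_rfl h3
      _ < 1 := by rw [mul_one]; exact hc'
  have hroot : (rd w.asIdeal (pol a b)).IsRoot (Ideal.Quotient.mk w.asIdeal c) := by
    rw [IsRoot.def, rd, eval_map]
    have e := eval₂_hom (Ideal.Quotient.mk w.asIdeal) c (p := pol a b)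
    refine e.trans ?_
    rw [Ideal.Quotient.eq_zero_iff_mem, eval_pol]
    exact hcm
  have h4 := (hm.irreducible_iff_roots_eq_zero_of_degree_le_three (by rw [hnd]; norm_num)
    (by rw [hnd])).1 hi
  have h5 := (mem_roots hm.ne_zero).2 hroot
  rw [h4] at h5
  simp at h5

/-- The discriminant. -/
theorem dsc_pol (a b : 𝓞 F) : dsc 1 (pol a b) = 4 * a ^ 3 + 27 * b ^ 2 := by
  have hdeg : (pol a b).degree = 3 := by
    rw [degree_eq_natDegree (pol_monic a b).ne_zero, pol_natDegree]
    rfl
  have h1 := resultant_deriv (f := pol a b) (by rw [hdeg]; norm_num)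
  rw [pol_natDegree] at h1
  have h2 := discr_of_degree_eq_three hdeg
  rw [h2, pol_coeff0, pol_coeff1, pol_coeff2, (pol_monic a b).leadingCoeff] at h1
  have h3 : (pol a b).coeff 3 = 1 := by
    have := (pol_monic a b).coeff_natDegree
    rwa [pol_natDegree] at this
  rw [h3] at h1
  have h4 : dsc 1 (pol a b) = (pol a b).resultant (derivative (pol a b)) 3 2 := rfl
  rw [h4]
  refine h1.trans ?_
  norm_num
  ring

end Pool.Agent.Run7.h245.NF
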