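import Pool.Agent.N40.PQ.Spl
import Pool.Agent.N710.PF.Exs
import Pool.Agent.N498.PQ.Cpl

/-!
# Primes over which a given extension splits
-/

set_option autoImplicit false
set_option linter.all false

open Polynomial IsDedekindDomain NumberField
open scoped Classical IntermediateField

namespace Pool.Agent.Run7.h245.NF

open Pool.Agent.N783.PF (GoodS)

/-- A field `N` which is Galois over `ℚ` embeds in `ℚ_q` if a generating polynomial splits modulo `q`. -/
theorem exists_emb {N : Type} [Field N] [NumberField N] {γ : N} {G : ℤ[X]} {δ : ℤ}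
    (hG : Pool.Agent.N922.PQ.Gen ℚ γ G δ) (hd : G.natDegree = Module.finrank ℚ N) {q : ℕ}
    (hq : q.Prime) (hδ : ¬ (q : ℤ) ∣ δ) (hs : Pool.Agent.N922.PQ.SplitMod (q : ℤ) G) :
    haveI : Fact q.Prime := ⟨hq⟩
    Nonempty (N →+* ℚ_[q]) := by
  haveI : Fact q.Prime := ⟨hq⟩
  obtain ⟨l, h, hl⟩ := hs
  -- a zero modulo `q`
  have hfr : 0 < Module.finrank ℚ N := Module.finrank_pos
  have hlne : l ≠ 0 := by
    rintro rfl
    rw [Multiset.map_zero, Multiset.prod_zero] at hl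
    -- `G = 1 + q h` is monic of positive degree, so the leading coefficient is divisible by `q`
    have h1 : G.coeff G.natDegree = 1 := hG.monic.coeff_natDegree
    rw [hl] at h1
    have h2 : (1 + C (q : ℤ) * h).natDegree = G.natDegree := by rw [← hl]
    rw [h2, coeff_add, coeff_C_mul, coeff_one, if_neg (by omega), zero_add] at h1
    have h3 : (q : ℤ) ∣ 1 := ⟨_, h1.symm⟩
    exact hq.one_lt.ne' (by exact_mod_cast Int.eq_one_of_dvd_one (by positivity) h3)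
  obtain ⟨c, hc⟩ := Multiset.exists_mem_of_ne_zero hlne
  have hGc : (q : ℤ) ∣ G.eval c := by
    rw [hl, eval_add, eval_mul, eval_C]
    refine dvd_add ?_ (dvd_mul_right _ _)
    have h1 : (X - C c : ℤ[X]) ∣ (l.map fun c => X - C c).prod :=
      Multiset.dvd_prod (Multiset.mem_map_of_mem _ hc)
    obtain ⟨u, hu⟩ := h1
    rw [hu, eval_mul, eval_sub, eval_X, eval_C, sub_self, zero_mul]
    exact dvd_zero _
  have hGc' : ¬ (q : ℤ) ∣ (derivative G).eval c := by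
    intro h1
    obtain ⟨u, w, huw⟩ := hG.comb
    have h2 := congrArg (eval c) huw
    rw [eval_C, eval_add, eval_mul, eval_mul] at h2
    exact hδ (h2 ▸ dvd_add (hGc.mul_left _) (h1.mul_left _))
  -- Hensel
  have e0 : ∀ p : ℤ[X], aeval ((c : ℤ) : ℤ_[q]) p = ((p.eval c : ℤ) : ℤ_[q]) := by
    intro p
    have h1 := aeval_algebraMap_apply ℤ_[q] c p
    rw [eq_intCast] at h1
    rw [h1, eq_intCast]
    congr 1
  have n1 : ‖aeval ((c : ℤ) : ℤ_[q]) G‖ < 1 := by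
    rw [e0]
    exact (PadicInt.norm_int_lt_one_iff_dvd _).2 hGc
  have n2 : ‖aeval ((c : ℤ) : ℤ_[q]) (derivative G)‖ = 1 := by
    rw [e0]
    refine le_antisymm (PadicInt.norm_le_one _) (not_lt.1 fun h1 => ?_)
    exact hGc' ((PadicInt.norm_int_lt_one_iff_dvd _).1 h1)
  obtain ⟨z, hz, -⟩ := hensels_lemma (p := q) (F := G) (a := ((c : ℤ) : ℤ_[q]))
    (by rw [n2, one_pow]; exact n1)
  -- the minimal polynomial
  have hint : IsIntegral ℚ γ := Algebra.IsIntegral.isIntegral γ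
  have hmin : G.map (algebraMap ℤ ℚ) = minpoly ℚ γ := by
    refine (eq_of_monic_of_dvd_of_natDegree_le (minpoly.monic hint) (hG.monic.map _) ?_ ?_)
    · apply minpoly.dvd
      rw [aeval_map_algebraMap]
      exact hG.root
    · rw [hG.monic.natDegree_map, hd, (Field.primitive_element_iff_minpoly_natDegree_eq ℚ γ).1 hG.top]
  have hz' : aeval ((z : ℤ_[q]) : ℚ_[q]) (minpoly ℚ γ) = 0 := by
    rw [← hmin, aeval_map_algebraMap]
    have h1 := congrArg (algebraMap ℤ_[q] ℚ_[q]) hz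
    rw [map_zero, ← aeval_algebraMap_apply] at h1
    exact h1
  have h2 : Nonempty (ℚ⟮γ⟯ →ₐ[ℚ] ℚ_[q]) := by
    refine ⟨(IntermediateField.adjoin.powerBasis hint).lift ((z : ℤ_[q]) : ℚ_[q]) ?_⟩
    rw [IntermediateField.adjoin.powerBasis_gen, IntermediateField.minpoly_gen]
    exact hz'
  rw [hG.top] at h2
  obtain ⟨φ⟩ := h2
  exact ⟨(φ.comp (IntermediateField.topEquiv (F := ℚ) (E := N)).symm.toAlgHom).toRingHom⟩

/-- Primes `q` over which the minimal polynomials of the elements of `K` split over `ℚ_q`. -/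
theorem exists_split (K : Type) [Field K] [NumberField K] (W m : ℕ) :
    ∃ S : Finset ℕ, S.card = m ∧ ∀ q ∈ S, q.Prime ∧ W < q ∧ q % 8 = 1 ∧
      ∀ hq : Fact q.Prime, ∀ x : K, ((minpoly ℚ x).map (algebraMap ℚ ℚ_[q])).Splits := by
  -- the normal closure
  let Ac := AlgebraicClosure K
  let N : IntermediateField ℚ Ac := IntermediateField.normalClosure ℚ K Ac
  haveI : FiniteDimensional ℚ N := inferInstance
  haveI : Algebra.IsAlgebraic ℚ Ac := Algebra.IsAlgebraic.trans ℚ K Ac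
  haveI : IsAlgClosure ℚ Ac := ⟨inferInstance, inferInstance⟩
  haveI : Normal ℚ Ac := IsAlgClosure.normal ℚ Ac
  haveI hNn : Normal ℚ N := normalClosure.normal ℚ K Ac
  haveI : NumberField N := ⟨⟩
  haveI : IsGalois ℚ N := ⟨⟩
  let j : K →ₐ[ℚ] Ac := IsScalarTower.toAlgHom ℚ K Ac
  have hj : ∀ x : K, j x ∈ N := fun x =>
    AlgHom.fieldRange_le_normalClosure j ⟨x, rfl⟩
  have hsp : ∀ x : K, ((minpoly ℚ x).map (algebraMap ℚ N)).Splits := by
    intro x
    have h1 := hNn.splits (⟨j x, hj x⟩ : N)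
    have h2 : minpoly ℚ (⟨j x, hj x⟩ : N) = minpoly ℚ x := by
      rw [← minpoly.algebraMap_eq (algebraMap N Ac).injective (⟨j x, hj x⟩ : N)]
      exact minpoly.algHom_eq j j.toRingHom.injective x
    rwa [h2] at h1
  obtain ⟨γ, G, δ, hG, hd⟩ := Pool.Agent.N40.PQ.gen N
  obtain ⟨S, s, hS, hcard, hdis, hspl⟩ := Pool.Agent.N40.PQ.spl N γ G δ hG hd
    (Finset.Icc (-((W : ℤ) + |δ|)) ((W : ℤ) + |δ|)) m
  have hbig : ∀ Q ∈ S, (W : ℤ) + |δ| < Q := by
    intro Q hQ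
    have h1 := Finset.disjoint_left.1 hdis hQ
    have h2 := (hS Q hQ).1.1
    rw [Finset.mem_Icc] at h1
    have h3 : 0 ≤ |δ| := abs_nonneg δ
    by_contra hcon
    exact h1 ⟨by omega, by omega⟩
  refine ⟨S.image Int.toNat, ?_, ?_⟩
  · rw [Finset.card_image_of_injOn, hcard]
    intro a ha b hb hab
    have h1 := (hS a ha).1.1
    have h2 := (hS b hb).1.1
    have hab' : a.toNat = b.toNat := hab
    omega
  · intro q hq
    obtain ⟨Q, hQ, rfl⟩ := Finset.mem_image.1 hq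
    obtain ⟨⟨h1, h2⟩, h3, -⟩ := hS Q hQ
    have hQ' : ((Q.toNat : ℕ) : ℤ) = Q := Int.toNat_of_nonneg h1.le
    have hp : Q.toNat.Prime := Nat.prime_iff_prime_int.2 (by rw [hQ']; exact h2)
    have hb := hbig Q hQ
    have hδ : 0 ≤ |δ| := abs_nonneg δ
    refine ⟨hp, by omega, by omega, fun hf x => ?_⟩
    have hnd : ¬ ((Q.toNat : ℕ) : ℤ) ∣ δ := by
      intro h
      rw [hQ'] at h
      have h4 : Q ∣ |δ| := (dvd_abs _ _).2 h
      have h5 := Int.le_of_dvd (abs_pos.2 hG.ne) h4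
      omega
    obtain ⟨φ⟩ := exists_emb hG hd hp hnd (by rw [hQ']; exact hspl Q hQ)
    have h6 := (hsp x).map φ
    rw [Polynomial.map_map] at h6
    have e : φ.comp (algebraMap ℚ N) = algebraMap ℚ ℚ_[Q.toNat] := Subsingleton.elim _ _
    rw [e] at h6
    exact h6

/-- The extension `K` of `F` embeds in the completions of `F` at the primes over `q`. -/
theorem emb_of_split {F K : Type} [Field F] [NumberField F] [Field K] [NumberField K] [Algebra F K]
    {q : ℕ} (hq : q.Prime)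
    (hs : ∀ hq : Fact q.Prime, ∀ x : K, ((minpoly ℚ x).map (algebraMap ℚ ℚ_[q])).Splits)
    (w : HeightOneSpectrum (𝓞 F)) (hw : (q : 𝓞 F) ∈ w.asIdeal) :
    Nonempty (K →ₐ[F] w.adicCompletion F) := by
  haveI hf : Fact q.Prime := ⟨hq⟩
  obtain ⟨ι, hι, -, -⟩ := Pool.Agent.N498.PQ.cpl F q w hw
  refine Field.nonempty_algHom_of_exists_root fun x => ?_
  have h1 := (hs hf x).map ι
  rw [Polynomial.map_map] at h1
  have e : ι.comp (algebraMap ℚ ℚ_[q]) =
      (algebraMap F (w.adicCompletion F)).comp (algebraMap ℚ F) := RingHom.ext_rat _ _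
  rw [e, ← Polynomial.map_map] at h1
  have hint : IsIntegral ℚ x := Algebra.IsIntegral.isIntegral x
  have h2 : (minpoly F x).map (algebraMap F (w.adicCompletion F)) ∣
      ((minpoly ℚ x).map (algebraMap ℚ F)).map (algebraMap F (w.adicCompletion F)) :=
    Polynomial.map_dvd _ (minpoly.dvd_map_of_isScalarTower ℚ F x)
  have hne : ((minpoly ℚ x).map (algebraMap ℚ F)).map (algebraMap F (w.adicCompletion F)) ≠ 0 :=
    (((minpoly.monic hint).map _).map _).ne_zero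
  have h3 := h1.of_dvd hne h2
  have hintF : IsIntegral F x := Algebra.IsIntegral.isIntegral x
  have hdeg : ((minpoly F x).map (algebraMap F (w.adicCompletion F))).degree ≠ 0 := by
    rw [degree_map]
    exact (minpoly.degree_pos hintF).ne'
  obtain ⟨y, hy⟩ := h3.exists_eval_eq_zero hdeg
  refine ⟨y, ?_⟩
  rw [eval_map] at hy
  rw [aeval_def]
  exact hy

/-- Existence of `S`, with a given extension `K` split over `S`. -/
theorem exs (F : Type) [Field F] [NumberField F] (g W : ℕ) (hg : 1 ≤ g) (K : Type) [Field K]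
    [NumberField K] [Algebra F K] (m : ℕ) :
    ∃ (S : Finset ℕ) (𝔮 : ℕ → Ideal (𝓞 F)) (h P : ℕ → (𝓞 F)[X]),
      GoodS g W S 𝔮 h P ∧ S.card = m ∧ ∀ q ∈ S, ∀ w : HeightOneSpectrum (𝓞 F),
        (q : 𝓞 F) ∈ w.asIdeal → Nonempty (K →ₐ[F] w.adicCompletion F) := by
  obtain ⟨S, hS, hS2⟩ := exists_split K (W + (2 * g + 1) + (discr F).natAbs) m
  have hdata : ∀ q : ℕ, ∃ (𝔮 : Ideal (𝓞 F)) (h A : (𝓞 F)[X]), q ∈ S →
    (∀ 𝔭 : Ideal (𝓞 F), 𝔭.IsPrime → (q : 𝓞 F) ∉ 𝔭 ^ 2) ∧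
    𝔮.IsPrime ∧ (q : 𝓞 F) ∈ 𝔮 ∧
    h.Monic ∧ h.natDegree = 2 * g ∧ Irreducible (Pool.Agent.N783.PF.rd 𝔮 h) ∧
    A.Monic ∧ A.natDegree = 2 * g + 1 ∧ A.coeff (2 * g) = 0 ∧
    Pool.Agent.N783.PF.Cg 𝔮 A (X * h) ∧
    ∀ 𝔭 : Ideal (𝓞 F), 𝔭.IsPrime → (q : 𝓞 F) ∈ 𝔭 → 𝔭 ≠ 𝔮 →
      Irreducible (Pool.Agent.N783.PF.rd 𝔭 A) := by
    intro q
    by_cases hq : q ∈ S
    · obtain ⟨h1, h2, h3, -⟩ := hS2 q hq
      obtain ⟨𝔮, h, A, hh⟩ := Pool.Agent.N710.PF.exists_data F g q hg h1 (by omega) (by omega)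
      exact ⟨𝔮, h, A, fun _ => hh⟩
    · exact ⟨⊥, 0, 0, fun h => absurd h hq⟩
  choose 𝔮 h A hh using hdata
  refine ⟨S, 𝔮, h, A, fun q hq => ?_, hS, fun q hq w hw => ?_⟩
  · obtain ⟨h1, h2, h3, -⟩ := hS2 q hq
    exact ⟨h1, by omega, by omega, h3, hh q hq⟩
  · obtain ⟨h1, -, -, h4⟩ := hS2 q hq
    exact emb_of_split h1 h4 w hw

end Pool.Agent.Run7.h245.NF
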