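import Pool.Agent.Run7.h245.NF.Re
import Pool.Agent.Run7.h245.NF.Rt
import Pool.Agent.Run7.h245.NF.Exs
import Pool.Agent.Run7.h245.NF.Fam

/-!
# The fields `K` which are allowed for the elliptic curve `y ^ 2 = x ^ 3 + a x + b`
-/

set_option autoImplicit false
set_option linter.all false

open Polynomial IsDedekindDomain WithZero NumberField
open scoped Classical

namespace Pool.Agent.Run7.h245.NF

open Pool.Agent.N783.PF
open Pool.Agent.N61.PF (pol pol_natDegree pol_monic pol_coeff0 pol_coeff1 pol_coeff2)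

variable {F : Type} [Field F] [NumberField F]

/-- `K` is allowed for the curve `y ^ 2 = x ^ 3 + a x + b`. -/
structure Alw (K : Type) [Field K] [NumberField K] [Algebra F K] (a b : 𝓞 F) : Prop where
  fin : ∀ w : HeightOneSpectrum (𝓞 F), Nonempty (K →ₐ[F] w.adicCompletion F) ∨
    ((2 : 𝓞 F) ∉ w.asIdeal ∧
      ((UnrOver K w ∧ 4 * a ^ 3 + 27 * b ^ 2 ∉ w.asIdeal ^ 2) ∨
        ∀ x : w.adicCompletion F, x ^ 3 + io w a * x + io w b ≠ 0))
  re : ∀ σ : F →+* ℝ, (∃ ρ : K →+* ℝ, ρ.comp (algebraMap F K) = σ) ∨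
    0 < σ ((4 * a ^ 3 + 27 * b ^ 2 : 𝓞 F) : F)

theorem scale_pol (a b : 𝓞 F) (D : ℕ) :
    (pol a b).scaleRoots ((D : ℕ) : 𝓞 F) = pol (a * (D : 𝓞 F) ^ 2) (b * (D : 𝓞 F) ^ 3) := by
  refine Polynomial.ext fun n => ?_
  rw [coeff_scaleRoots, pol_natDegree]
  rcases lt_or_ge n 4 with hn | hn
  · interval_cases n
    · rw [pol_coeff0, pol_coeff0]
    · rw [pol_coeff1, pol_coeff1]
    · rw [pol_coeff2, pol_coeff2, zero_mul]
    · have h1 : ∀ a b : 𝓞 F, (pol a b).coeff 3 = 1 := by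
        intro a b
        have := (pol_monic a b).coeff_natDegree
        rwa [pol_natDegree] at this
      rw [h1, h1]
      simp
  · rw [coeff_eq_zero_of_natDegree_lt (by rw [pol_natDegree]; omega), zero_mul,
      coeff_eq_zero_of_natDegree_lt (by rw [pol_natDegree]; omega)]

theorem fF_pol (a b : 𝓞 F) : fF (pol a b) = X ^ 3 + C (a : F) * X + C (b : F) := by
  unfold pol
  simp [fF]

theorem alF_of {K : Type} [Field K] [NumberField K] [Algebra F K] {a b : 𝓞 F} {D : ℕ}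
    (hsq : SqF 1 (pol a b)) (h : Alw K (a * (D : 𝓞 F) ^ 2) (b * (D : 𝓞 F) ^ 3)) :
    AlF K (pol a b) D := by
  intro w
  rcases h.fin w with h1 | ⟨h2, h3 | h3⟩
  · exact Or.inl h1
  · refine Or.inr ⟨h2, Or.inl ⟨h3.1, fun hD => h3.2 ?_⟩⟩
    have e : 4 * (a * (D : 𝓞 F) ^ 2) ^ 3 + 27 * (b * (D : 𝓞 F) ^ 3) ^ 2 =
        ((D : 𝓞 F) ^ 4 * (4 * a ^ 3 + 27 * b ^ 2)) * (D : 𝓞 F) ^ 2 := by ring
    rw [e]
    exact Ideal.mul_mem_left _ _ (Ideal.pow_mem_pow hD 2)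
  · refine Or.inr ⟨h2, Or.inr ?_⟩
    refine irr_of_noroot w a b ?_ fun x hx => h3 ((D : w.adicCompletion F) * x) ?_
    · have h4 := hsq w.asIdeal w.isPrime w.ne_bot
      rwa [dsc_pol] at h4
    · have e1 : io w (a * (D : 𝓞 F) ^ 2) = io w a * (D : w.adicCompletion F) ^ 2 := by
        simp [io]
      have e2 : io w (b * (D : 𝓞 F) ^ 3) = io w b * (D : w.adicCompletion F) ^ 3 := by
        simp [io]
      rw [e1, e2]
      linear_combination (D : w.adicCompletion F) ^ 3 * hx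

theorem alR_of {K : Type} [Field K] [NumberField K] [Algebra F K] {a b : 𝓞 F} {D : ℕ}
    (hirr : Irreducible (fD (pol a b) D)) (h : Alw K (a * (D : 𝓞 F) ^ 2) (b * (D : 𝓞 F) ^ 3)) :
    AlR K (fD (pol a b) D) := by
  intro σ
  rcases h.re σ with h1 | h1
  · exact Or.inl h1
  · refine Or.inr ?_
    rw [fD, scale_pol, fF_pol] at hirr ⊢
    refine freeR _ _ hirr σ ?_
    have e : ((4 * (a * (D : 𝓞 F) ^ 2) ^ 3 + 27 * (b * (D : 𝓞 F) ^ 3) ^ 2 : 𝓞 F) : F) =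
        4 * ((a * (D : 𝓞 F) ^ 2 : 𝓞 F) : F) ^ 3 + 27 * ((b * (D : 𝓞 F) ^ 3 : 𝓞 F) : F) ^ 2 := by
      simp only [map_add, map_mul, map_pow, map_ofNat]
    rw [← e]
    exact h1

/-- Unramified outside the primes dividing the discriminant. -/
theorem unr_of_large {K : Type} [Field K] [NumberField K] [Algebra F K]
    (w : HeightOneSpectrum (𝓞 F)) {p : ℕ} (hp : p.Prime) (hpw : (p : 𝓞 F) ∈ w.asIdeal)
    (hd : (discr K).natAbs < p) : UnrOver K w := by
  intro v hv h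
  apply Pool.Agent.N710.PF.not_mem_sq hp hd v.isPrime
  apply h
  have h1 := Ideal.mem_map_of_mem (algebraMap (𝓞 F) (𝓞 K)) hpw
  rwa [map_natCast] at h1

/-- The given field `K` is allowed for the members of the family. -/
theorem alw_fam {K : Type} [Field K] [NumberField K] [Algebra F K]
    (h2 : ∀ w : HeightOneSpectrum (𝓞 F), (2 : 𝓞 F) ∈ w.asIdeal →
      Nonempty (K →ₐ[F] w.adicCompletion F))
    (hR : ∀ σ : F →+* ℝ, ∃ ρ : K →+* ℝ, ρ.comp (algebraMap F K) = σ)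
    {W B : ℕ} {f₁ : (𝓞 F)[X]} {S J : Finset ℕ} {P : ℕ → (𝓞 F)[X]} {a b : 𝓞 F}
    (hp : ∀ p : ℕ, p.Prime → p ≤ (discr K).natAbs → p ∣ W)
    (hW : ∀ v : HeightOneSpectrum (𝓞 F), (W : 𝓞 F) ∈ v.asIdeal →
      Irreducible (Pool.Agent.N352.PF.rv v f₁))
    (hS : ∀ q ∈ S, q.Prime ∧ ∀ w : HeightOneSpectrum (𝓞 F), (q : 𝓞 F) ∈ w.asIdeal →
      Nonempty (K →ₐ[F] w.adicCompletion F)) (hJ : J ⊆ S) (hsq : SqF 1 (pol a b))
    (hF : Fam 1 B W f₁ S P (pol a b)) :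
    Alw K (a * ((Dp J : ℕ) : 𝓞 F) ^ 2) (b * ((Dp J : ℕ) : 𝓞 F) ^ 3) := by
  refine ⟨fun w => ?_, fun σ => Or.inl (hR σ)⟩
  by_cases h2w : (2 : 𝓞 F) ∈ w.asIdeal
  · exact Or.inl (h2 w h2w)
  by_cases hqw : ∃ q ∈ S, (q : 𝓞 F) ∈ w.asIdeal
  · obtain ⟨q, hq, hqw⟩ := hqw
    exact Or.inl ((hS q hq).2 w hqw)
  push Not at hqw
  refine Or.inr ⟨h2w, ?_⟩
  have hD0 : Dp J ≠ 0 := by
    rw [Dp, Finset.prod_ne_zero_iff]
    exact fun q hq => (hS q (hJ hq)).1.ne_zero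
  by_cases hWw : (W : 𝓞 F) ∈ w.asIdeal
  · refine Or.inr fun x hx => ?_
    have hi : Irreducible (rd w.asIdeal (pol a b)) := by
      have e : rd w.asIdeal (pol a b) = rd w.asIdeal f₁ := by
        refine Polynomial.ext fun n => ?_
        rw [coeff_map, coeff_map, Ideal.Quotient.mk_eq_mk_iff_sub_mem]
        exact (Ideal.span_singleton_le_iff_mem _).2 hWw (hF.one n)
      rw [e]
      exact hW w hWw
    haveI : CharZero (w.adicCompletion F) :=
      charZero_of_injective_algebraMap (algebraMap F (w.adicCompletion F)).injective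
    have hD : ((Dp J : ℕ) : w.adicCompletion F) ≠ 0 := Nat.cast_ne_zero.2 hD0
    apply noroot_of_irr w a b hi (x / ((Dp J : ℕ) : w.adicCompletion F))
    have e1 : io w (a * ((Dp J : ℕ) : 𝓞 F) ^ 2) =
        io w a * ((Dp J : ℕ) : w.adicCompletion F) ^ 2 := by
      simp [io]
    have e2 : io w (b * ((Dp J : ℕ) : 𝓞 F) ^ 3) =
        io w b * ((Dp J : ℕ) : w.adicCompletion F) ^ 3 := by
      simp [io]
    rw [e1, e2] at hx
    field_simp
    linear_combination hx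
  · refine Or.inl ⟨?_, ?_⟩
    · have hpos : 0 < Ideal.absNorm w.asIdeal := by
        rw [Nat.pos_iff_ne_zero, Ne, Ideal.absNorm_eq_zero_iff]
        exact w.ne_bot
      obtain ⟨p, hp1, -, hp3⟩ := Pool.Agent.N951.PF.prime_factor w.asIdeal w.isPrime _ hpos
        (Ideal.absNorm_mem w.asIdeal)
      refine unr_of_large w hp1 hp3 ?_
      by_contra hcon
      apply hWw
      obtain ⟨m, hm⟩ := hp p hp1 (not_lt.1 hcon)
      rw [hm, Nat.cast_mul]
      exact Ideal.mul_mem_right _ _ hp3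
    · intro h
      have e : 4 * (a * ((Dp J : ℕ) : 𝓞 F) ^ 2) ^ 3 + 27 * (b * ((Dp J : ℕ) : 𝓞 F) ^ 3) ^ 2 =
          (((Dp J : ℕ) : 𝓞 F) ^ 6) * (4 * a ^ 3 + 27 * b ^ 2) := by ring
      rw [e] at h
      haveI := w.isPrime
      rcases Ideal.IsPrime.mul_mem_pow w.asIdeal h with h1 | h1
      · have h3 := w.isPrime.mem_of_pow_mem _ h1
        rw [Dp, Nat.cast_prod] at h3
        obtain ⟨q, hq, hqm⟩ := (Ideal.IsPrime.prod_mem_iff (hp := w.isPrime)).1 h3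
        exact hqw q (hJ hq) hqm
      · have h4 := hsq w.asIdeal w.isPrime w.ne_bot
        rw [dsc_pol] at h4
        exact h4 h1

end Pool.Agent.Run7.h245.NF
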