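import Pool.Agent.N603.PM.UR
import Pool.Agent.N459.PF.Ram

/-!
# Valuations of `L` in `Ω = K L` at primes at which `f'(θ)` is a unit and `K / F` is unramified
-/

set_option autoImplicit false
set_option linter.all false

open Polynomial IsDedekindDomain WithZero NumberField
open scoped Classical

namespace Pool.Agent.Run7.h245.NF

open Pool.Agent.N783.PF (Ov IsGen fF)

/-- The extension `K / F` is unramified at the prime `v` of `K` over `w`. -/
def UnrAt {F K : Type} [Field F] [NumberField F] [Field K] [NumberField K] [Algebra F K]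
    (w : HeightOneSpectrum (𝓞 F)) (v : HeightOneSpectrum (𝓞 K)) : Prop :=
  ¬ w.asIdeal.map (algebraMap (𝓞 F) (𝓞 K)) ≤ v.asIdeal ^ 2

section

variable {F K : Type} [Field F] [NumberField F] [Field K] [NumberField K] [Algebra F K]

theorem ram_eq_one {w : HeightOneSpectrum (𝓞 F)} {v : HeightOneSpectrum (𝓞 K)}
    (hO : Ov w.asIdeal v) (h : UnrAt w v) : w.asIdeal.ramificationIdx' v.asIdeal = 1 := by
  have hle : w.asIdeal.map (algebraMap (𝓞 F) (𝓞 K)) ≤ v.asIdeal := by
    rw [Ideal.map_le_iff_le_comap]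
    exact hO
  by_contra hne
  exact h ((Ideal.ramificationIdx'_ne_one_iff hle).1 hne)

theorem lies {w : HeightOneSpectrum (𝓞 F)} {v : HeightOneSpectrum (𝓞 K)}
    (hO : Ov w.asIdeal v) : v.asIdeal.LiesOver w.asIdeal := by
  refine ⟨?_⟩
  have h1 : w.asIdeal ≤ v.asIdeal.under (𝓞 F) := hO
  exact w.isMaximal.eq_of_le (Ideal.IsPrime.under (𝓞 F) v.asIdeal).ne_top h1

/-- the valuations at unramified primes -/
theorem val_unr {w : HeightOneSpectrum (𝓞 F)} {v : HeightOneSpectrum (𝓞 K)}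
    (hO : Ov w.asIdeal v) (h : UnrAt w v) (x : F) :
    v.valuation K (algebraMap F K x) = w.valuation F x := by
  haveI := lies hO
  have h1 := HeightOneSpectrum.valuation_liesOver (K := F) K w v x
  rw [ram_eq_one hO h, pow_one] at h1
  exact h1.symm

/-- in general the valuations are powers -/
theorem val_pow {w : HeightOneSpectrum (𝓞 F)} {v : HeightOneSpectrum (𝓞 K)}
    (hO : Ov w.asIdeal v) : ∃ e : ℕ, e ≠ 0 ∧ ∀ x : F,
      v.valuation K (algebraMap F K x) = w.valuation F x ^ e := by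
  haveI := lies hO
  exact ⟨_, Ideal.IsDedekindDomain.ramificationIdx'_ne_zero_of_liesOver v.asIdeal w.ne_bot,
    fun x => (HeightOneSpectrum.valuation_liesOver (K := F) K w v x).symm⟩

end

section

variable {F L K Ω : Type} [Field F] [NumberField F] [Field L] [NumberField L] [Field K]
  [NumberField K] [Field Ω] [NumberField Ω] [Algebra F L] [Algebra F K] [Algebra L Ω]
  [Algebra K Ω] [Algebra F Ω] [IsScalarTower F L Ω] [IsScalarTower F K Ω]

/-- At a prime of `Ω = K(θ)` at which `f'(θ)` is a unit the extension `Ω / K` is unramified. -/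
theorem val_top {g : ℕ} {f : (𝓞 F)[X]} {θ : L} (hG : IsGen g f θ)
    (htop : Algebra.adjoin K {algebraMap L Ω θ} = ⊤)
    {v : HeightOneSpectrum (𝓞 K)} {P : HeightOneSpectrum (𝓞 Ω)} (hO : Ov v.asIdeal P)
    (hP : P.valuation Ω (algebraMap L Ω (aeval θ (derivative (fF f)))) = 1) (x : K) :
    P.valuation Ω (algebraMap K Ω x) = v.valuation K x := by
  haveI := lies hO
  have hθ : IsIntegral ℤ (algebraMap L Ω θ) :=
    (Pool.Agent.N459.PF.theta_int hG).map (algebraMap L Ω).toIntAlgHom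
  obtain ⟨y, hy⟩ : ∃ y : 𝓞 Ω, algebraMap (𝓞 Ω) Ω y = algebraMap L Ω θ := ⟨⟨_, hθ⟩, rfl⟩
  have e1 : algebraMap (𝓞 Ω) Ω (aeval y (derivative f)) =
      algebraMap L Ω (aeval θ (derivative (fF f))) := by
    rw [← aeval_algebraMap_apply, hy, ← aeval_algebraMap_apply, fF, derivative_map,
      aeval_map_algebraMap]
  have hfy : aeval y f = 0 := by
    apply IsFractionRing.injective (𝓞 Ω) Ω
    rw [map_zero, ← aeval_algebraMap_apply, hy]
    have h1 := congrArg (algebraMap L Ω) hG.root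
    rw [map_zero, ← aeval_algebraMap_apply, fF, aeval_map_algebraMap] at h1
    exact h1
  refine Pool.Agent.N603.PM.UR.core (𝓞 K) K Ω (𝓞 Ω) y (by rw [hy]; exact htop) P ?_ v x
  intro hmem
  have hint : IsIntegral (𝓞 K) y := by
    have h1 : IsIntegral (𝓞 F) y := ⟨f, hG.mon, hfy⟩
    exact h1.tower_top
  have hfy' : aeval y (f.map (algebraMap (𝓞 F) (𝓞 K))) = 0 := by
    rw [aeval_map_algebraMap]
    exact hfy
  have hdvd : minpoly (𝓞 K) y ∣ f.map (algebraMap (𝓞 F) (𝓞 K)) :=
    minpoly.isIntegrallyClosed_dvd hint hfy'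
  obtain ⟨q, hq⟩ := hdvd
  have h1 : aeval y (derivative f) = aeval y (derivative (minpoly (𝓞 K) y)) * aeval y q := by
    have h2 := congrArg (fun p : (𝓞 K)[X] => aeval y (derivative p)) hq
    simp only [derivative_mul, map_add, map_mul, minpoly.aeval, zero_mul, add_zero] at h2
    rw [← h2, derivative_map, aeval_map_algebraMap]
  have h3 : aeval y (derivative f) ∈ P.asIdeal := by
    rw [h1]
    exact Ideal.mul_mem_right _ _ hmem
  rw [← e1] at hP
  exact absurd hP ((HeightOneSpectrum.valuation_lt_one_iff_mem (K := Ω) P _).2 h3).ne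

/-- The valuations of the elements of `L`. -/
theorem val_low {g : ℕ} {f : (𝓞 F)[X]} {θ : L} (hG : IsGen g f θ)
    (htop : Algebra.adjoin K {algebraMap L Ω θ} = ⊤) {w : HeightOneSpectrum (𝓞 F)}
    {v : HeightOneSpectrum (𝓞 K)} {𝔓 : HeightOneSpectrum (𝓞 L)} {P : HeightOneSpectrum (𝓞 Ω)}
    (h1 : Ov w.asIdeal v) (h2 : Ov w.asIdeal 𝔓) (h3 : Ov v.asIdeal P) (h4 : Ov 𝔓.asIdeal P)
    (hun : UnrAt w v)
    (hP : P.valuation Ω (algebraMap L Ω (aeval θ (derivative (fF f)))) = 1) (x : L) :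
    P.valuation Ω (algebraMap L Ω x) = 𝔓.valuation L x := by
  obtain ⟨e, he, hv⟩ := val_pow h4
  obtain ⟨e', he', hv'⟩ := val_pow h2
  obtain ⟨π, hπ⟩ := w.valuation_exists_uniformizer F
  have a1 : P.valuation Ω (algebraMap F Ω π) = exp (-1 : ℤ) := by
    rw [IsScalarTower.algebraMap_apply F K Ω, val_top hG htop h3 hP, val_unr h1 hun, hπ]
  have a2 : P.valuation Ω (algebraMap F Ω π) = (exp (-1 : ℤ)) ^ (e' * e) := by
    rw [IsScalarTower.algebraMap_apply F L Ω, hv, hv', hπ, pow_mul]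
  have a3 : e' * e = 1 := by
    rw [a1, ← exp_nsmul, exp_inj] at a2
    have : ((e' * e : ℕ) : ℤ) = 1 := by
      have h5 : (e' * e) • (-1 : ℤ) = -((e' * e : ℕ) : ℤ) := by simp
      rw [h5] at a2
      omega
    exact_mod_cast this
  have a4 : e = 1 := Nat.eq_one_of_mul_eq_one_left a3
  rw [hv, a4, pow_one]

end

end Pool.Agent.Run7.h245.NF
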