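import Pool.Agent.Run7.h245.NF.Emb
import Pool.Agent.Run7.h245.NF.Unr
import Pool.Agent.N78.PF.Loc
import Pool.Agent.N415.PQ.SigLie
import Pool.Agent.N301.JM.TOW

/-!
# The local conditions over a Galois extension `K` of `F`, for elements of `Ω = K(θ)`
-/

set_option autoImplicit false
set_option linter.all false

open Polynomial IsDedekindDomain WithZero NumberField
open scoped Classical

namespace Pool.Agent.Run7.h245.NF

open Pool.Agent.N874.PP (Ev Sq1 U0)
open Pool.Agent.N783.PQ (LocIm)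
open Pool.Agent.N874.JM (LocF)
open Pool.Agent.N783.PF (Ov IsGen fF)

/-- The polynomial of the twist by `D`. -/
noncomputable abbrev fD {F : Type} [Field F] [NumberField F] (f : (𝓞 F)[X]) (D : ℕ) : F[X] :=
  fF (f.scaleRoots ((D : ℕ) : 𝓞 F))

/-- The extension `K / F` is unramified over `w`. -/
def UnrOver {F : Type} (K : Type) [Field F] [NumberField F] [Field K] [NumberField K] [Algebra F K]
    (w : HeightOneSpectrum (𝓞 F)) : Prop :=
  ∀ v : HeightOneSpectrum (𝓞 K), Ov w.asIdeal v → UnrAt w v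

section locIm

variable {E : Type} [Field E] {f h h' : E[X]}

theorem locIm_congr (hd : f ∣ h - h') (H : LocIm E f h) : LocIm E f h' := by
  obtain ⟨l, s, h1, h2⟩ := H
  refine ⟨l, s, h1, ?_⟩
  obtain ⟨a, ha⟩ := hd
  obtain ⟨b, hb⟩ := h2
  refine ⟨b - a * (l.map fun p => (-1) ^ p.1.natDegree * p.1).prod, ?_⟩
  linear_combination hb - (l.map fun p => (-1) ^ p.1.natDegree * p.1).prod * ha

theorem locIm_sq (h : E[X]) : LocIm E f (h ^ 2) :=
  ⟨[], h, by simp, by simp⟩

/-- The condition is stable under field homomorphisms. -/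
theorem locIm_map {E' : Type} [Field E'] (ι : E →+* E') (H : LocIm E f h) :
    LocIm E' (f.map ι) (h.map ι) := by
  obtain ⟨l, s, h1, h2⟩ := H
  refine ⟨l.map fun p => (p.1.map ι, p.2.map ι), s.map ι, ?_, ?_⟩
  · intro p hp
    obtain ⟨q, hq, rfl⟩ := List.mem_map.1 hp
    obtain ⟨a1, a2, a3⟩ := h1 q hq
    refine ⟨a1.map ι, a2.map (mapRingHom ι), ?_⟩
    have := Polynomial.map_dvd ι a3
    simpa using this
  · have h3 := Polynomial.map_dvd ι h2
    have e : (List.map (fun p : E'[X] × E'[X] => (-1) ^ p.1.natDegree * p.1)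
        (List.map (fun p : E[X] × E[X] => (p.1.map ι, p.2.map ι)) l)).prod =
        ((l.map fun p : E[X] × E[X] => (-1) ^ p.1.natDegree * p.1).prod).map ι := by
      rw [Polynomial.map_list_prod, List.map_map, List.map_map]
      congr 1
      refine List.map_congr_left fun p _ => ?_
      simp only [Function.comp_apply, Polynomial.map_mul, Polynomial.map_pow, Polynomial.map_neg,
        Polynomial.map_one, natDegree_map]
    rw [e, ← Polynomial.map_mul, ← Polynomial.map_pow, ← Polynomial.map_sub]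
    exact h3

end locIm

section cn

variable {F L K Ω : Type} [Field F] [NumberField F] [Field L] [NumberField L] [Field K]
  [NumberField K] [Field Ω] [NumberField Ω] [Algebra F L] [Algebra F K] [Algebra L Ω]
  [Algebra K Ω] [Algebra F Ω] [IsScalarTower F L Ω] [IsScalarTower F K Ω]

/-- The local conditions. -/
structure Cn (K : Type) [Field K] [NumberField K] [Algebra F K] [Algebra K Ω] (f : (𝓞 F)[X])
    (D : ℕ) (θ : L) (x : Ω) : Prop where
  ev : ∀ w : HeightOneSpectrum (𝓞 F), (2 : 𝓞 F) ∉ w.asIdeal → (D : 𝓞 F) ∉ w.asIdeal →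
    ∀ P : HeightOneSpectrum (𝓞 Ω), Ov w.asIdeal P →
    P.valuation Ω (algebraMap L Ω (aeval θ (derivative (fF f)))) = 1 → Ev P x
  emb : ∀ (w : HeightOneSpectrum (𝓞 F)) (j : K →ₐ[F] w.adicCompletion F) (h : K[X]),
    aeval (algebraMap L Ω ((D : L) * θ)) h = x →
    LocIm (w.adicCompletion F) ((fD f D).map (algebraMap F (w.adicCompletion F)))
      (h.map (j : K →+* w.adicCompletion F))
  re : ∀ (ρ : K →+* ℝ) (h : K[X]), aeval (algebraMap L Ω ((D : L) * θ)) h = x →
    LocIm ℝ ((fD f D).map (ρ.comp (algebraMap F K))) (h.map ρ)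

variable {g : ℕ} {f : (𝓞 F)[X]} {D : ℕ} {θ : L}

theorem root_D (hG : IsGen g f θ) : aeval ((D : L) * θ) (fD f D) = 0 := by
  have e1 := scaleRoots_eval₂_mul (p := fF f) (algebraMap F L) θ (D : F)
  have e2 : eval₂ (algebraMap F L) θ (fF f) = 0 := by
    rw [← aeval_def]
    exact hG.root
  rw [e2, mul_zero, map_natCast] at e1
  rw [fD, Pool.Agent.N78.PF.fF_scale hG.mon, aeval_def]
  exact e1

/-- Two polynomials with the same value at `D θ` are congruent. -/
theorem congr_D (hmin : minpoly K (algebraMap L Ω ((D : L) * θ)) = (fD f D).map (algebraMap F K))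
    {h h' : K[X]}
    (he : aeval (algebraMap L Ω ((D : L) * θ)) h = aeval (algebraMap L Ω ((D : L) * θ)) h') :
    (fD f D).map (algebraMap F K) ∣ h - h' := by
  rw [← hmin]
  apply minpoly.dvd
  rw [map_sub, he, sub_self]

theorem map_emb {w : HeightOneSpectrum (𝓞 F)} (j : K →ₐ[F] w.adicCompletion F) (p : F[X]) :
    (p.map (algebraMap F K)).map (j : K →+* w.adicCompletion F) =
      p.map (algebraMap F (w.adicCompletion F)) := by
  rw [Polynomial.map_map, AlgHom.comp_algebraMap]

/-- squares -/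
theorem Cn.sq (hG : IsGen g f θ)
    (hmin : minpoly K (algebraMap L Ω ((D : L) * θ)) = (fD f D).map (algebraMap F K))
    (hsur : ∀ x : Ω, ∃ h : K[X], aeval (algebraMap L Ω ((D : L) * θ)) h = x) (x : Ω) :
    Cn K f D θ (x ^ 2) where
  ev w _ _ P _ _ := ⟨x, map_pow _ _ _⟩
  emb w j h hh := by
    obtain ⟨k, hk⟩ := hsur x
    have h1 := Polynomial.map_dvd (j : K →+* w.adicCompletion F) (congr_D hmin (h := k ^ 2)
      (h' := h) (by rw [hh, map_pow, hk]))
    rw [map_emb, Polynomial.map_sub] at h1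
    refine locIm_congr h1 ?_
    rw [Polynomial.map_pow]
    exact locIm_sq _
  re ρ h hh := by
    obtain ⟨k, hk⟩ := hsur x
    have h1 := Polynomial.map_dvd ρ (congr_D hmin (h := k ^ 2)
      (h' := h) (by rw [hh, map_pow, hk]))
    rw [Polynomial.map_map, Polynomial.map_sub] at h1
    refine locIm_congr h1 ?_
    rw [Polynomial.map_pow]
    exact locIm_sq _

/-- products -/
theorem Cn.mul (hG : IsGen g f θ)
    (hmin : minpoly K (algebraMap L Ω ((D : L) * θ)) = (fD f D).map (algebraMap F K))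
    (hsur : ∀ x : Ω, ∃ h : K[X], aeval (algebraMap L Ω ((D : L) * θ)) h = x) {x y : Ω}
    (hx : Cn K f D θ x) (hy : Cn K f D θ y) : Cn K f D θ (x * y) where
  ev w h1 h2 P h4 h5 := by
    obtain ⟨u, hu⟩ := hx.ev w h1 h2 P h4 h5
    obtain ⟨v, hv⟩ := hy.ev w h1 h2 P h4 h5
    exact ⟨u * v, by rw [map_mul, map_mul, hu, hv, mul_pow]⟩
  emb w j h hh := by
    obtain ⟨k, hk⟩ := hsur x
    obtain ⟨k', hk'⟩ := hsur y
    have h1 := Polynomial.map_dvd (j : K →+* w.adicCompletion F) (congr_D hmin (h := k * k')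
      (h' := h) (by rw [hh, map_mul, hk, hk']))
    rw [map_emb, Polynomial.map_sub] at h1
    refine locIm_congr h1 ?_
    rw [Polynomial.map_mul]
    exact Pool.Agent.N891.PQ.LocIm.mul (hx.emb w j k hk) (hy.emb w j k' hk')
  re ρ h hh := by
    obtain ⟨k, hk⟩ := hsur x
    obtain ⟨k', hk'⟩ := hsur y
    have h1 := Polynomial.map_dvd ρ (congr_D hmin (h := k * k')
      (h' := h) (by rw [hh, map_mul, hk, hk']))
    rw [Polynomial.map_map, Polynomial.map_sub] at h1
    refine locIm_congr h1 ?_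
    rw [Polynomial.map_mul]
    exact Pool.Agent.N891.PQ.LocIm.mul (hx.re ρ k hk) (hy.re ρ k' hk')

/-- automorphisms over `L` -/
theorem Cn.gal [IsGalois F K] (τ : Ω ≃ₐ[L] Ω) {x : Ω} (hx : Cn K f D θ x) :
    Cn K f D θ (τ x) := by
  -- the restriction to `K`
  let τF : Ω ≃ₐ[F] Ω := τ.restrictScalars F
  let σ : K ≃ₐ[F] K := τF.restrictNormal K
  have hσ : ∀ z : K, algebraMap K Ω (σ z) = τ (algebraMap K Ω z) := fun z =>
    AlgEquiv.restrictNormal_commutes τF K z
  have hσs : ∀ z : K, algebraMap K Ω (σ.symm z) = τ.symm (algebraMap K Ω z) := by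
    intro z
    apply τ.injective
    rw [← hσ, AlgEquiv.apply_symm_apply, AlgEquiv.apply_symm_apply]
  have hpol : ∀ h : K[X], aeval (algebraMap L Ω ((D : L) * θ)) (h.map (σ.symm : K →+* K)) =
      τ.symm (aeval (algebraMap L Ω ((D : L) * θ)) h) := by
    intro h
    obtain ⟨Θ, hΘ⟩ : ∃ Θ : L, Θ = (D : L) * θ := ⟨_, rfl⟩
    rw [← hΘ]
    induction h using Polynomial.induction_on' with
    | add p q hp hq => rw [Polynomial.map_add, map_add, map_add, map_add, hp, hq]
    | monomial n a =>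
      rw [Polynomial.map_monomial, aeval_monomial, aeval_monomial, map_mul, map_pow,
        AlgEquiv.commutes]
      congr 1
      exact hσs a
  refine ⟨?_, ?_, ?_⟩
  · intro w h1 h2 P h4 h5
    obtain ⟨P', hP', -⟩ := Pool.Agent.N415.PQ.sig Ω (𝓞 Ω) τ.toRingEquiv P
    have hP'' : ∀ x : Ω, P'.valuation Ω x = P.valuation Ω (τ x) := hP'
    have h4' : Ov w.asIdeal P' := by
      intro a ha
      have h6 : P.valuation Ω (algebraMap (𝓞 Ω) Ω (algebraMap (𝓞 F) (𝓞 Ω) a)) < 1 :=
        (HeightOneSpectrum.valuation_lt_one_iff_mem (K := Ω) P _).2 (h4 a ha)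
      refine (HeightOneSpectrum.valuation_lt_one_iff_mem (K := Ω) P' _).1 ?_
      show P'.valuation Ω (algebraMap (𝓞 Ω) Ω (algebraMap (𝓞 F) (𝓞 Ω) a)) < 1
      have e : algebraMap (𝓞 Ω) Ω (algebraMap (𝓞 F) (𝓞 Ω) a) =
          algebraMap L Ω (algebraMap F L (algebraMap (𝓞 F) F a)) := by
        rw [← IsScalarTower.algebraMap_apply F L Ω, ← IsScalarTower.algebraMap_apply (𝓞 F) F Ω,
          ← IsScalarTower.algebraMap_apply (𝓞 F) (𝓞 Ω) Ω]
      rw [hP'', e, AlgEquiv.commutes, ← e]
      exact h6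
    obtain ⟨y, hy⟩ := hx.ev w h1 h2 P' h4' (by rw [hP'', AlgEquiv.commutes]; exact h5)
    refine ⟨τ y, ?_⟩
    rw [← hP'', ← hP'', hy]
  · intro w j h hh
    have h1 : aeval (algebraMap L Ω ((D : L) * θ)) (h.map (σ.symm : K →+* K)) = x := by
      rw [hpol, hh, AlgEquiv.symm_apply_apply]
    have h2 := hx.emb w (j.comp (σ : K →ₐ[F] K)) _ h1
    have e : (h.map (σ.symm : K →+* K)).map
        ((j.comp (σ : K →ₐ[F] K) : K →ₐ[F] w.adicCompletion F) : K →+* w.adicCompletion F) =
        h.map (j : K →+* w.adicCompletion F) := by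
      rw [Polynomial.map_map]
      congr 1
      ext z
      simp
    rw [e] at h2
    exact h2
  · intro ρ h hh
    have h1 : aeval (algebraMap L Ω ((D : L) * θ)) (h.map (σ.symm : K →+* K)) = x := by
      rw [hpol, hh, AlgEquiv.symm_apply_apply]
    have h2 := hx.re (ρ.comp (σ : K →+* K)) _ h1
    have e : (h.map (σ.symm : K →+* K)).map (ρ.comp (σ : K →+* K)) = h.map ρ := by
      rw [Polynomial.map_map]
      congr 1
      ext z
      simp
    have e2 : (ρ.comp (σ : K →+* K)).comp (algebraMap F K) = ρ.comp (algebraMap F K) := by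
      ext z
      simp
    rw [e, e2] at h2
    exact h2

end cn

end Pool.Agent.Run7.h245.NF
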