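import Mathlib

/-!
# An embedding of `K` in the completion of `F` at `w` extends to a completion of `K`

After `N816/PQ/Emb.lean` (helper816) and `N498/PQ/Cpl.lean` (helper498), where the target is `ℚ_p`.
-/

set_option autoImplicit false
set_option linter.all false

open IsDedekindDomain WithZero Filter Topology MonoidWithZeroHom NumberField

namespace Pool.Agent.Run7.h245.NF

section

variable {F K : Type} [Field F] [NumberField F] [Field K] [NumberField K]
  {w : HeightOneSpectrum (𝓞 F)} (σ : K →+* w.adicCompletion F)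

/-- The valuation of the completion of `F`, pulled back to `K`. -/
noncomputable def vj (x : K) : WithZero (Multiplicative ℤ) :=
  Valued.v (Γ₀ := WithZero (Multiplicative ℤ)) (σ x)

theorem vj_mul (x y : K) : vj σ (x * y) = vj σ x * vj σ y := by
  simp only [vj, map_mul]

theorem vj_pow (x : K) (n : ℕ) : vj σ (x ^ n) = vj σ x ^ n := by
  simp only [vj, map_pow]

theorem vj_int (x : 𝓞 K) : vj σ (algebraMap (𝓞 K) K x) ≤ 1 := by
  obtain ⟨p, hp, h0⟩ := (x.2 : IsIntegral ℤ (x : K))
  have h1 : Polynomial.eval₂ (Int.castRingHom (w.adicCompletion F)) (σ (algebraMap (𝓞 K) K x)) p =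
      0 := by
    have h2 := congrArg σ h0
    rw [map_zero, Polynomial.hom_eval₂] at h2
    have e : σ.comp (algebraMap ℤ K) = Int.castRingHom (w.adicCompletion F) :=
      RingHom.ext_int _ _
    rw [e] at h2
    exact h2
  set v : Valuation (w.adicCompletion F) (WithZero (Multiplicative ℤ)) := Valued.v with hv
  have h3 : IsIntegral v.integer (σ (algebraMap (𝓞 K) K x)) := by
    refine ⟨p.map (Int.castRingHom v.integer), hp.map _, ?_⟩
    rw [Polynomial.eval₂_map]
    have e : (algebraMap v.integer (w.adicCompletion F)).comp (Int.castRingHom v.integer) =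
        Int.castRingHom (w.adicCompletion F) := RingHom.ext_int _ _
    rw [e]
    exact h1
  exact Valuation.Integers.mem_of_integral (Valuation.integer.integers v) h3

/-- The prime ideal. -/
noncomputable def pI : Ideal (𝓞 K) where
  carrier := {x | vj σ (algebraMap (𝓞 K) K x) < 1}
  zero_mem' := by
    show vj σ (algebraMap (𝓞 K) K 0) < 1
    simp [vj]
  add_mem' := by
    intro a b ha hb
    show vj σ (algebraMap (𝓞 K) K (a + b)) < 1
    have ha' : vj σ (algebraMap (𝓞 K) K a) < 1 := ha
    have hb' : vj σ (algebraMap (𝓞 K) K b) < 1 := hb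
    unfold vj at *
    rw [map_add, map_add]
    exact Valuation.map_add_lt _ ha' hb'
  smul_mem' := by
    intro c x hx
    show vj σ (algebraMap (𝓞 K) K (c • x)) < 1
    have hx' : vj σ (algebraMap (𝓞 K) K x) < 1 := hx
    rw [smul_eq_mul, map_mul, vj_mul]
    calc vj σ (algebraMap (𝓞 K) K c) * vj σ (algebraMap (𝓞 K) K x)
        ≤ 1 * vj σ (algebraMap (𝓞 K) K x) := mul_le_mul' (vj_int σ c) le_rfl
      _ < 1 := by rwa [one_mul]

theorem mem_pI (x : 𝓞 K) : x ∈ pI σ ↔ vj σ (algebraMap (𝓞 K) K x) < 1 := Iff.rfl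

theorem vj_nat (n : ℕ) : vj σ (n : K) = w.valuation F (n : F) := by
  have h1 : σ (n : K) = algebraMap F (w.adicCompletion F) (n : F) := by
    rw [map_natCast, map_natCast]
  unfold vj
  rw [h1]
  exact HeightOneSpectrum.valuedAdicCompletion_eq_valuation' w (n : F)

/-- There is a natural number `n ≠ 0` in `w`. -/
theorem exists_nat (w : HeightOneSpectrum (𝓞 F)) : ∃ n : ℕ, n ≠ 0 ∧ (n : 𝓞 F) ∈ w.asIdeal := by
  refine ⟨Ideal.absNorm w.asIdeal, ?_, Ideal.absNorm_mem _⟩
  rw [Ne, Ideal.absNorm_eq_zero_iff]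
  exact w.ne_bot

/-- The place. -/
noncomputable def pl : HeightOneSpectrum (𝓞 K) where
  asIdeal := pI σ
  isPrime := by
    refine Ideal.isPrime_iff.2 ⟨?_, ?_⟩
    · intro h
      rw [Ideal.eq_top_iff_one, mem_pI, map_one] at h
      unfold vj at h
      rw [map_one, map_one] at h
      exact lt_irrefl _ h
    · intro x y hxy
      rw [mem_pI, map_mul, vj_mul] at hxy
      rw [mem_pI, mem_pI]
      by_contra hcon
      push Not at hcon
      have h1 : vj σ (algebraMap (𝓞 K) K x) = 1 := le_antisymm (vj_int σ x) hcon.1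
      have h2 : vj σ (algebraMap (𝓞 K) K y) = 1 := le_antisymm (vj_int σ y) hcon.2
      rw [h1, h2, one_mul] at hxy
      exact lt_irrefl _ hxy
  ne_bot := by
    intro h0
    obtain ⟨n, hn, hnw⟩ := exists_nat w
    have h1 : (n : 𝓞 K) ∈ pI σ := by
      rw [mem_pI, map_natCast, vj_nat]
      have := (HeightOneSpectrum.valuation_lt_one_iff_mem (K := F) w (n : 𝓞 F)).2 hnw
      simpa using this
    rw [h0, Ideal.mem_bot] at h1
    exact hn (by exact_mod_cast h1)

theorem le_of (x : K) (hx : (pl σ).valuation K x ≤ 1) : vj σ x ≤ 1 := by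
  obtain ⟨n, d, hnd⟩ := (pl σ).exists_primeCompl_mul_eq_of_integer x hx
  have hd : vj σ (algebraMap (𝓞 K) K d) = 1 := by
    refine le_antisymm (vj_int σ _) (not_lt.1 fun h => ?_)
    exact d.2 ((mem_pI σ _).2 h)
  have h1 := congrArg (vj σ) hnd
  rw [vj_mul, hd, mul_one] at h1
  rw [h1]
  exact vj_int σ n

theorem lt_of (x : K) (hx : (pl σ).valuation K x < 1) : vj σ x < 1 := by
  obtain ⟨n, d, hnd⟩ := (pl σ).exists_primeCompl_mul_eq_of_integer x hx.le
  have hd : vj σ (algebraMap (𝓞 K) K d) = 1 := by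
    refine le_antisymm (vj_int σ _) (not_lt.1 fun h => ?_)
    exact d.2 ((mem_pI σ _).2 h)
  have h1 := congrArg (vj σ) hnd
  rw [vj_mul, hd, mul_one] at h1
  rw [h1, ← mem_pI]
  have h2 : (pl σ).valuation K (algebraMap (𝓞 K) K n) < 1 := by
    rw [← hnd, map_mul]
    exact mul_lt_one_of_lt_of_le hx ((pl σ).valuation_le_one _)
  exact ((pl σ).valuation_lt_one_iff_mem n).1 h2

/-- The field with the topology of the valuation. -/
noncomputable def wf : WithVal ((pl σ).valuation K) →+* w.adicCompletion F :=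
  σ.comp (WithVal.equiv ((pl σ).valuation K)).toRingHom

theorem wf_cont : Continuous (wf σ) := by
  have key : ContinuousAt (wf σ).toAddMonoidHom 0 := by
    show Tendsto (wf σ) (𝓝 0) (𝓝 (wf σ 0))
    rw [map_zero]
    intro s hs
    obtain ⟨γ, hγ⟩ := Valued.mem_nhds_zero.1 hs
    have hg : ValueGroup₀.embedding γ.1 ≠ 0 := by
      rw [Ne, map_eq_zero]
      exact γ.ne_zero
    obtain ⟨n, hn, -⟩ := exists_exp_neg_natCast_lt_and_lt hg hg
    obtain ⟨π, hπ⟩ := (pl σ).valuation_exists_uniformizer K
    have hπ0 : π ≠ 0 := by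
      rintro rfl
      rw [map_zero] at hπ
      exact exp_ne_zero hπ.symm
    have hπ1 : vj σ π ≤ exp (-1 : ℤ) := by
      have h5 := lt_of σ π (by rw [hπ, ← exp_zero, exp_lt_exp]; norm_num)
      have h0 : vj σ π ≠ 0 := by
        unfold vj
        rw [Ne, map_eq_zero, map_eq_zero]
        exact hπ0
      have h6 : exp (log (vj σ π)) = vj σ π := exp_log h0
      rw [← h6, ← exp_zero, exp_lt_exp] at h5
      rw [← h6, exp_le_exp]
      omega
    have hne : (Valued.v (R := WithVal ((pl σ).valuation K))).restrict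
        (WithVal.toVal ((pl σ).valuation K) (π ^ n)) ≠ 0 := by
      rw [Valuation.ne_zero_iff]
      intro h
      exact pow_ne_zero n hπ0 ((WithVal.toVal_eq_zero _ _).1 h)
    rw [Filter.mem_map, Valued.mem_nhds_zero]
    refine ⟨Units.mk0 _ hne, fun x hx => hγ ?_⟩
    have hx' : Valued.v x < Valued.v (WithVal.toVal ((pl σ).valuation K) (π ^ n)) :=
      (Valuation.restrict_lt_iff _).1 hx
    have hx2 : (pl σ).valuation K x.ofVal < (pl σ).valuation K (π ^ n) := hx'
    have hpn : (pl σ).valuation K (π ^ n) ≠ 0 := (Valuation.ne_zero_iff _).2 (pow_ne_zero n hπ0)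
    have h3 : (pl σ).valuation K (x.ofVal / π ^ n) ≤ 1 := by
      rw [map_div₀]
      exact (div_le_one₀ (zero_lt_iff.2 hpn)).2 hx2.le
    have h4 := le_of σ _ h3
    have e : x.ofVal = π ^ n * (x.ofVal / π ^ n) := by
      field_simp
    show (Valued.v (R := w.adicCompletion F)).restrict (wf σ x) < γ
    rw [Valuation.restrict_lt_iff_lt_embedding]
    refine lt_of_le_of_lt ?_ hn
    have e1 : Valued.v (wf σ x) = vj σ x.ofVal := rfl
    rw [e1, e, vj_mul, vj_pow]
    calc vj σ π ^ n * vj σ (x.ofVal / π ^ n) ≤ exp (-1 : ℤ) ^ n * 1 :=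
          mul_le_mul' (pow_le_pow_left₀ zero_le hπ1 n) h4
      _ = exp (-(n : ℤ)) := by
        rw [mul_one, ← exp_nsmul]
        congr 1
        simp
  exact continuous_of_continuousAt_zero (wf σ).toAddMonoidHom key

end

/-- **EMB.** An embedding of `K` in the completion of `F` at `w` extends to a completion of `K`. -/
theorem emb {F K : Type} [Field F] [NumberField F] [Field K] [NumberField K]
    (w : HeightOneSpectrum (𝓞 F)) (σ : K →+* w.adicCompletion F) :
    ∃ (v : HeightOneSpectrum (𝓞 K)) (ι : v.adicCompletion K →+* w.adicCompletion F),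
      ∀ x : K, ι (algebraMap K (v.adicCompletion K) x) = σ x := by
  have hc := wf_cont σ
  refine ⟨pl σ, (UniformSpace.Completion.extensionHom (wf σ) hc).comp
    (HeightOneSpectrum.adicCompletion.equiv K (pl σ)).toRingHom, fun x => ?_⟩
  exact UniformSpace.Completion.extensionHom_coe (wf σ) hc (WithVal.toVal _ x)

end Pool.Agent.Run7.h245.NF
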