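import Pool.Agent.Run7.h245.NF.Cnd

/-!
# From the local conditions for elements of `L` to the conditions of the relaxed Selmer group

After `N78/PF/Loc.lean` (helper78).
-/

set_option autoImplicit false
set_option linter.all false

open Polynomial IsDedekindDomain WithZero NumberField
open scoped Classical

namespace Pool.Agent.Run7.h245.NF

open Pool.Agent.N874.PP (Ev Sq1 U0)
open Pool.Agent.N783.PQ (LocIm)
open Pool.Agent.N874.JM (LocF)
open Pool.Agent.N874.PM (Lies)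
open Pool.Agent.N783.PF
open Pool.Agent.N78.PF (LOC2 fF_scale eq_of_ov val_one two_cast val_theta val_der rd_eq sp_le map_locF
  ev_unit)

section

variable {F L : Type} [Field F] [NumberField F] [Field L] [NumberField L] [Algebra F L]

theorem low (h1 : S_INT) (h2 : S_PIN) (h3 : S_PAR) (h4 : S_PARQ) (h5 : S_RAM) (h6 : S_CSQ)
    (h7 : S_EXQ) (h8 : S_LIE) {g W : ℕ} {f f₁ : (𝓞 F)[X]} {θ : L} {S J : Finset ℕ}
    {𝔮 : ℕ → Ideal (𝓞 F)} {r P : ℕ → (𝓞 F)[X]} (hg : 1 ≤ g) (hG : IsGen g f θ) (hsq : SqF g f)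
    (hF : GoodF g W f₁) (hS : GoodS g W S 𝔮 r P) (hc1 : Cg (sp F W) f f₁)
    (hcq : ∀ q ∈ S, Cg (sp F q) f (P q)) (hJS : J ⊆ S) {D : ℕ} (hD : D = Dp J)
    (Spl Un : HeightOneSpectrum (𝓞 F) → Prop)
    (hA : ∀ w, Spl w ∨ ((2 : 𝓞 F) ∉ w.asIdeal ∧
      ((Un w ∧ (D : 𝓞 F) ∉ w.asIdeal) ∨ Irreducible (rd w.asIdeal f))))
    {h : F[X]} (hne : aeval ((D : L) * θ) h ≠ 0)
    (hN : IsSquare (Algebra.norm F (aeval ((D : L) * θ) h)))
    (hloc : ∀ w, Spl w → LocF (w.adicCompletion F) (fD f D) h)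
    (hun : ∀ w, Un w → (2 : 𝓞 F) ∉ w.asIdeal → (D : 𝓞 F) ∉ w.asIdeal →
      ∀ 𝔓 : HeightOneSpectrum (𝓞 L), Ov w.asIdeal 𝔓 →
      𝔓.valuation L (aeval θ (derivative (fF f))) = 1 → Ev 𝔓 (aeval ((D : L) * θ) h))
    (hreal : ∀ σ : F →+* ℝ, LocIm ℝ ((fD f D).map σ) (h.map σ)) :
    (∀ 𝔓 : HeightOneSpectrum (𝓞 L), (∀ q ∈ J, Ov (𝔮 q) 𝔓 → 𝔓.valuation L θ ≠ 1) →
      Ev 𝔓 (aeval ((D : L) * θ) h)) ∧
    (∀ q ∈ J, ∀ 𝔓 : HeightOneSpectrum (𝓞 L), Ov (𝔮 q) 𝔓 → 𝔓.valuation L θ = 1 →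
      U0 𝔓 ((q : L) * θ) (aeval ((D : L) * θ) h)) ∧
    (∀ w : HeightOneSpectrum (𝓞 F), (2 : 𝓞 F) ∈ w.asIdeal →
      LocF (w.adicCompletion F) (fF f) (h.comp (C (D : F) * X))) ∧
    ∀ σ : F →+* ℝ, LocIm ℝ ((fF f).map σ) ((h.comp (C (D : F) * X)).map σ) := by
  have hqp : ∀ q ∈ S, q.Prime := fun q hq => (hS q hq).1
  -- congruences modulo `𝔮 q`
  have hcQ : ∀ q ∈ S, Cg (𝔮 q) f (X * r q) := by
    intro q hq j
    obtain ⟨-, -, -, -, -, -, a2, -, -, -, -, -, -, a3, -⟩ := hS q hq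
    have b1 := sp_le (F := F) a2 (hcq q hq j)
    have b2 := a3 j
    have := Ideal.add_mem _ b1 b2
    simpa using this
  have hqne : ∀ q ∈ S, 𝔮 q ≠ ⊥ := by
    intro q hq h0
    obtain ⟨a1, -, -, -, -, -, a2, -⟩ := hS q hq
    rw [h0, Ideal.mem_bot] at a2
    exact a1.ne_zero (by exact_mod_cast a2)
  have hqpr : ∀ q ∈ S, (𝔮 q).IsPrime := by
    intro q hq
    obtain ⟨-, -, -, -, -, a1, -⟩ := hS q hq
    exact a1
  have hD0 : D ≠ 0 := by
    rw [hD, Dp, Finset.prod_ne_zero_iff]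
    exact fun q hq => (hqp q (hJS hq)).ne_zero
  have hD8 : D % 8 = 1 := by
    rw [hD]
    have : ∀ T : Finset ℕ, T ⊆ S → (∏ q ∈ T, q) % 8 = 1 := by
      intro T
      induction T using Finset.induction_on with
      | empty => intro _; rfl
      | insert a T ha ih =>
        intro hT
        rw [Finset.prod_insert ha, Nat.mul_mod, ih fun x hx => hT (Finset.mem_insert_of_mem hx),
          (hS a (hT (Finset.mem_insert_self _ _))).2.2.2.1]
    exact this J hJS
  refine ⟨?_, ?_, ?_, ?_⟩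
  · -- even valuations
    intro 𝔓 h𝔓
    obtain ⟨w, w1, w2, w3⟩ := h8 F L 𝔓
    have hL : Lies (M := F) (Ω := L) w 𝔓 := ⟨fun x => (w3 x).1, fun x => (w3 x).2⟩
    by_cases c2 : (2 : 𝓞 F) ∈ w.asIdeal
    · -- primes over two
      have hW : (W : 𝓞 F) ∈ w.asIdeal := by
        obtain ⟨k, hk⟩ := hF.two
        rw [hk]
        push_cast
        exact Ideal.mul_mem_right _ _ c2
      have e1 := rd_eq (sp_le hW) hc1
      exact h2 g F L f θ hG hsq w.asIdeal w.isPrime w.ne_bot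
        (by rw [e1]; exact hF.irr _ w.isPrime c2) _ hne hN 𝔓 w1
    · by_cases cq : ∃ q ∈ J, (q : 𝓞 F) ∈ w.asIdeal
      · obtain ⟨q, hq, hqw⟩ := cq
        have hqS := hJS hq
        by_cases cw : w.asIdeal = 𝔮 q
        · have o1 : Ov (𝔮 q) 𝔓 := by
            rw [← cw]
            exact w1
          have v1 : 𝔓.valuation L θ < 1 := lt_of_le_of_ne (val_theta hG 𝔓) (h𝔓 q hq o1)
          exact h4 g W F L f θ S 𝔮 r P hg hG hsq hS q hqS (hcQ q hqS) _ hne hN 𝔓 o1 v1
        · have e1 := rd_eq (sp_le hqw) (hcq q hqS)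
          obtain ⟨-, -, -, -, -, -, -, -, -, -, -, -, -, -, a1⟩ := hS q hqS
          exact h2 g F L f θ hG hsq w.asIdeal w.isPrime w.ne_bot
            (by rw [e1]; exact a1 _ w.isPrime hqw cw) _ hne hN 𝔓 w1
      · -- primes not dividing `2 D`
        have hDw : (D : 𝓞 F) ∉ w.asIdeal := by
          intro hd
          rw [hD, Dp, Nat.cast_prod] at hd
          haveI := w.isPrime
          obtain ⟨q, hq, hqw⟩ := (Ideal.IsPrime.prod_mem_iff).1 hd
          exact cq ⟨q, hq, hqw⟩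
        by_cases ci : Irreducible (rd w.asIdeal f)
        · exact h2 g F L f θ hG hsq w.asIdeal w.isPrime w.ne_bot ci _ hne hN 𝔓 w1
        -- the primes at which `f'(θ)` is a unit
        have key : ∀ 𝔓' : HeightOneSpectrum (𝓞 L), Ov w.asIdeal 𝔓' →
            𝔓'.valuation L (aeval θ (derivative (fF f))) = 1 → Ev 𝔓' (aeval ((D : L) * θ) h) := by
          intro 𝔓' o' n'
          rcases hA w with hs | ⟨-, ⟨hs, -⟩ | hs⟩
          · obtain ⟨w', u1, u2, u3⟩ := h8 F L 𝔓'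
            have ew : w = w' := by
              ext1
              exact eq_of_ov w.isPrime w.ne_bot o' u2
            have hL' : Lies (M := F) (Ω := L) w 𝔓' := by
              rw [ew]
              exact ⟨fun x => (u3 x).1, fun x => (u3 x).2⟩
            exact ev_unit hG hL' c2 hDw h n' (hloc w hs) hne
          · exact hun w hs c2 hDw 𝔓' o' n'
          · exact absurd hs ci
        by_cases cu : 𝔓.valuation L (aeval θ (derivative (fF f))) = 1
        · exact key 𝔓 w1 cu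
        · have v1 : 𝔓.valuation L (aeval θ (derivative (fF f))) < 1 :=
            lt_of_le_of_ne (val_der hG 𝔓) cu
          obtain ⟨⟨c, hc⟩, hother⟩ := h5 g F L f θ hG hsq w.asIdeal w.isPrime w.ne_bot 𝔓 w1 v1
          exact h3 g F L f θ hG hsq w.asIdeal w.isPrime w.ne_bot 𝔓 c w1 hc _ hne hN
            fun 𝔓' o' n' => key 𝔓' o' (hother 𝔓' o' n')
  · -- the primes in `J`
    intro q hq 𝔓 o1 v1
    have hqS := hJS hq
    obtain ⟨w, w1, w2, w3⟩ := h8 F L 𝔓
    have hL : Lies (M := F) (Ω := L) w 𝔓 := ⟨fun x => (w3 x).1, fun x => (w3 x).2⟩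
    have ew : 𝔮 q = w.asIdeal := eq_of_ov (hqpr q hqS) (hqne q hqS) o1 w2
    obtain ⟨a1, a2, a3, a4, a5, a6, a7, a8, a9, a10, a11, a12, a13, a14, a15⟩ := hS q hqS
    haveI : Finite (𝓞 F ⧸ w.asIdeal) := Ideal.finiteQuotientOfFreeOfNeBot _ w.ne_bot
    haveI : Finite (𝓞 L ⧸ 𝔓.asIdeal) := Ideal.finiteQuotientOfFreeOfNeBot _ 𝔓.ne_bot
    have h2w : (2 : 𝓞 F) ∉ 𝔮 q := by
      intro hm
      have h9 : ((q : 𝓞 F)) - 2 * ((q / 2 : ℕ) : 𝓞 F) = 1 := by
        have h10 : q = 2 * (q / 2) + 1 := by omega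
        have h11 : (q : 𝓞 F) = 2 * ((q / 2 : ℕ) : 𝓞 F) + 1 := by
          exact_mod_cast congrArg (Nat.cast (R := 𝓞 F)) h10
        rw [h11]
        ring
      apply a6.ne_top
      rw [Ideal.eq_top_iff_one, ← h9]
      exact Ideal.sub_mem _ a7 (Ideal.mul_mem_right _ _ hm)
    have nat_mem : ∀ p : ℕ, p.Prime → (p : 𝓞 F) ∈ 𝔮 q → p = q := by
      intro p hp hpm
      by_contra hpq
      have hco : Nat.Coprime p q := (Nat.coprime_primes hp a1).2 hpq
      obtain ⟨u, v, huv⟩ := (Nat.isCoprime_iff_coprime.2 hco)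
      apply a6.ne_top
      rw [Ideal.eq_top_iff_one]
      have h9 : (1 : 𝓞 F) = (u : 𝓞 F) * (p : 𝓞 F) + (v : 𝓞 F) * (q : 𝓞 F) := by
        have := congrArg (Int.cast (R := 𝓞 F)) huv
        push_cast at this
        exact this.symm
      rw [h9]
      exact Ideal.add_mem _ (Ideal.mul_mem_left _ _ hpm) (Ideal.mul_mem_left _ _ a7)
    have a10' : Irreducible (rd w.asIdeal (r q)) := ew ▸ a10
    obtain ⟨D', hD'⟩ : ∃ D' : ℕ, D' = ∏ p ∈ J.erase q, p := ⟨_, rfl⟩
    have hDD : D = q * D' := by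
      rw [hD, hD']
      exact (Finset.mul_prod_erase J (fun P => P) hq).symm
    have hD'm : (D' : 𝓞 F) ∉ 𝔮 q := by
      intro hd
      rw [hD', Nat.cast_prod] at hd
      haveI := a6
      obtain ⟨p, hp, hpm⟩ := (Ideal.IsPrime.prod_mem_iff).1 hd
      have hp' := Finset.mem_erase.1 hp
      exact hp'.1 (nat_mem p (hqp p (hJS hp'.2)) hpm)
    -- the prime is split
    have hspl : Spl w := by
      rcases hA w with hs | ⟨-, ⟨-, hs⟩ | hs⟩
      · exact hs
      · exfalso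
        apply hs
        rw [hDD, Nat.cast_mul, ← ew]
        exact Ideal.mul_mem_right _ _ a7
      · exfalso
        have hle : rd w.asIdeal f = X * rd w.asIdeal (r q) := by
          have := rd_eq (𝔭 := w.asIdeal) (le_of_eq ew) (hcQ q hqS)
          rw [this, rd, Polynomial.map_mul, map_X]
        haveI hmax : w.asIdeal.IsMaximal := w.isMaximal
        letI : Field (𝓞 F ⧸ w.asIdeal) := Ideal.Quotient.field _
        rw [hle] at hs
        rcases hs.isUnit_or_isUnit rfl with hu | hu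
        · exact Polynomial.not_isUnit_X hu
        · exact a10'.not_isUnit hu
    have v2 : w.valuation F 2 = 1 := by
      have := val_one (w := w) (a := 2) (by rw [← ew]; exact h2w)
      rwa [two_cast] at this
    have vD' : w.valuation F (D' : F) = 1 := by
      have := val_one (w := w) (a := (D' : 𝓞 F)) (by rw [← ew]; exact hD'm)
      simpa using this
    obtain ⟨𝔓₁, 𝔓₂, e1, e2, e3, e4, e5, e6, e7⟩ :=
      h7 g W F L f θ S 𝔮 r P hg hG hsq hS q hqS (hcQ q hqS)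
    have vq : 𝔓.valuation L (algebraMap F L (q : F)) = WithZero.exp (-1 : ℤ) := by
      rw [map_natCast]
      rcases e7 𝔓 o1 with rfl | rfl
      · exact e5
      · exact e6
    obtain ⟨c1, -, -, -⟩ := h6 g W F L f θ S 𝔮 r P hg hG hsq hS q hqS (hcQ q hqS) 𝔓 o1 v1
    have s1 : Sq1 𝔓 (-1 : L) := by
      have := c1 (-1) (by
        intro hm
        apply a6.ne_top
        rw [Ideal.eq_top_iff_one]
        have := Ideal.neg_mem_iff _ |>.2 hm
        simpa using this)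
      simpa using this
    have s2 : Sq1 𝔓 (algebraMap F L (D' : F)) := by
      have := c1 (D' : 𝓞 F) hD'm
      simpa using this
    have hl := hloc w hspl
    rw [fD, fF_scale hG.mon, hDD, Nat.cast_mul] at hl
    have e8 : (D : L) = algebraMap F L ((q : F) * (D' : F)) := by
      rw [hDD]
      simp
    have e9 : (q : L) = algebraMap F L (q : F) := by simp
    rw [e8] at hne ⊢
    rw [e9]
    refine LOC2 F L (𝓞 F) (𝓞 L) w 𝔓 hL v2 g (fF f) h (r q) (q : F) (D' : F) θ hg (hG.mon.map _)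
      ?_ a8 a9 ?_ ?_ hG.root v1 vq vD' s1 s2 hl hne
    · rw [hG.mon.natDegree_map, hG.deg]
    · exact a10'
    · intro j
      rw [coeff_map, ← map_sub]
      refine (HeightOneSpectrum.valuation_lt_one_iff_mem (K := F) w _).2 ?_
      rw [← ew]
      exact hcQ q hqS j
  · -- the primes over two
    intro w hw
    haveI : Fact (Nat.Prime 2) := ⟨Nat.prime_two⟩
    have hspl : Spl w := by
      rcases hA w with hs | ⟨hs, -⟩
      · exact hs
      · exact absurd hw hs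
    obtain ⟨δ, hδ⟩ := Pool.Agent.N891.PQ.sq_two D hD8
    obtain ⟨ι, hι, -, -⟩ := Pool.Agent.N498.PQ.cpl F 2 w (by
      change ((2 : ℕ) : 𝓞 F) ∈ w.asIdeal
      exact_mod_cast hw)
    haveI : CharZero (w.adicCompletion F) :=
      charZero_of_injective_algebraMap (algebraMap F (w.adicCompletion F)).injective
    exact map_locF hG.mon hG.deg hD0 (ι δ) (by rw [← map_pow, hδ, map_natCast]) h (hloc w hspl)
  · -- the real places
    intro σ
    letI : Algebra F ℝ := σ.toAlgebra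
    exact map_locF (E := ℝ) hG.mon hG.deg hD0 (Real.sqrt D) (Real.sq_sqrt (Nat.cast_nonneg D)) h
      (hreal σ)

end

end Pool.Agent.Run7.h245.NF
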