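import Pool.Agent.Run7.h245.NF.Low

/-!
# The elements of the Selmer group over `K` satisfy the local conditions; descent to `L`
-/

set_option autoImplicit false
set_option linter.all false

open Polynomial IsDedekindDomain WithZero NumberField
open scoped Classical IntermediateField

namespace Pool.Agent.Run7.h245.NF

open Pool.Agent.N874.PP (Ev Sq1 U0)
open Pool.Agent.N783.PQ (LocIm)
open Pool.Agent.N874.JM (LocF)
open Pool.Agent.N874.PM (Lies)
open Pool.Agent.N783.PF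
open Pool.Agent.N78.PF (LOC1 LOC2 fF_scale eq_of_ov val_one two_cast val_theta val_der rd_eq sp_le
  map_locF ev_unit)

section

variable {F L K Ω : Type} [Field F] [NumberField F] [Field L] [NumberField L] [Field K]
  [NumberField K] [Field Ω] [NumberField Ω] [Algebra F L] [Algebra F K] [Algebra L Ω]
  [Algebra K Ω] [Algebra F Ω] [IsScalarTower F L Ω] [IsScalarTower F K Ω]
  {g : ℕ} {f : (𝓞 F)[X]} {D : ℕ} {θ : L}

theorem lies_of_ov {F K : Type} [Field F] [NumberField F] [Field K] [NumberField K] [Algebra F K]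
    {w : HeightOneSpectrum (𝓞 F)} {v : HeightOneSpectrum (𝓞 K)}
    (hO : Ov w.asIdeal v) : Lies (M := F) (Ω := K) w v := by
  obtain ⟨e, he, hv⟩ := val_pow hO
  refine ⟨fun x hx => ?_, fun x hx => ?_⟩
  · rw [hv]
    exact pow_le_one' hx e
  · rw [hv]
    exact pow_lt_one' hx he

theorem ov_trans {w : HeightOneSpectrum (𝓞 F)} {v : HeightOneSpectrum (𝓞 K)}
    {P : HeightOneSpectrum (𝓞 Ω)} (h1 : Ov w.asIdeal v) (h2 : Ov v.asIdeal P) :
    Ov w.asIdeal P := by
  intro a ha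
  have := h2 _ (h1 a ha)
  rwa [← IsScalarTower.algebraMap_apply (𝓞 F) (𝓞 K) (𝓞 Ω)] at this

/-- A prime of `Ω` which lies over `w` lies over a prime of `K` over `w`. -/
theorem exists_mid {w : HeightOneSpectrum (𝓞 F)} {P : HeightOneSpectrum (𝓞 Ω)}
    (h : Ov w.asIdeal P) : ∃ v : HeightOneSpectrum (𝓞 K), Ov v.asIdeal P ∧ Ov w.asIdeal v := by
  obtain ⟨v, h1, h2, -⟩ := Pool.Agent.N459.PF.lie K Ω P
  refine ⟨v, h1, fun a ha => (h2 _).2 ?_⟩
  rw [← IsScalarTower.algebraMap_apply (𝓞 F) (𝓞 K) (𝓞 Ω)]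
  exact h a ha

/-- Over every prime of `L` there is a prime of `Ω`. -/
theorem exists_over (𝔓 : HeightOneSpectrum (𝓞 L)) :
    ∃ P : HeightOneSpectrum (𝓞 Ω), Ov 𝔓.asIdeal P := by
  have hinj : Function.Injective (algebraMap (𝓞 L) (𝓞 Ω)) :=
    FaithfulSMul.algebraMap_injective _ _
  obtain ⟨Q, -, hQp, hQ⟩ := Ideal.exists_ideal_over_prime_of_isIntegral (S := 𝓞 Ω) 𝔓.asIdeal ⊥
    (by
      intro x hx
      have h1 : algebraMap (𝓞 L) (𝓞 Ω) x = 0 := by simpa using hx
      have h2 : x = 0 := hinj (by rw [h1, map_zero])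
      rw [h2]
      exact zero_mem _)
  have hQ0 : Q ≠ ⊥ := by
    rintro rfl
    apply 𝔓.ne_bot
    rw [← hQ]
    exact (RingHom.injective_iff_ker_eq_bot _).1 hinj
  refine ⟨⟨Q, hQp, hQ0⟩, fun a ha => ?_⟩
  rw [← hQ] at ha
  exact ha

/-- Even valuations. -/
theorem ev_down {𝔓 : HeightOneSpectrum (𝓞 L)} {P : HeightOneSpectrum (𝓞 Ω)}
    (hv : ∀ x : L, P.valuation Ω (algebraMap L Ω x) = 𝔓.valuation L x) {x : L}
    (h : Ev P (algebraMap L Ω x)) : Ev 𝔓 x := by
  obtain ⟨y, hy⟩ := h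
  rw [hv] at hy
  obtain ⟨z, hz⟩ := 𝔓.valuation_surjective L (P.valuation Ω y)
  exact ⟨z, by rw [hy, hz]⟩

/-- Elements which are locally in the image satisfy the conditions. -/
theorem cn_of (hG : IsGen g f θ) (hD0 : D ≠ 0)
    (hmin : minpoly K (algebraMap L Ω ((D : L) * θ)) = (fD f D).map (algebraMap F K))
    {h : K[X]} (hne : aeval (algebraMap L Ω ((D : L) * θ)) h ≠ 0)
    (hloc : ∀ v : HeightOneSpectrum (𝓞 K),
      LocF (v.adicCompletion K) ((fD f D).map (algebraMap F K)) h)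
    (hreal : ∀ ρ : K →+* ℝ, LocIm ℝ (((fD f D).map (algebraMap F K)).map ρ) (h.map ρ)) :
    Cn K f D θ (aeval (algebraMap L Ω ((D : L) * θ)) h) where
  ev w h2 hDw P hO hder := by
    obtain ⟨v, o1, o2⟩ := exists_mid (K := K) hO
    have hL := lies_of_ov o1
    obtain ⟨e, he, hv⟩ := val_pow o2
    have v2 : v.valuation K 2 = 1 := by
      have h3 := hv 2
      have h4 := val_one h2
      rw [two_cast] at h4
      rw [h4, one_pow, map_ofNat] at h3
      exact h3
    have vD : v.valuation K (D : K) = 1 := by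
      have h3 := hv (D : F)
      have h4 := val_one hDw
      have h5 : w.valuation F (D : F) = 1 := by simpa using h4
      rw [h5, one_pow, map_natCast] at h3
      exact h3
    have hl := hloc v
    have e0 : (fD f D).map (algebraMap F K) = ((fF f).map (algebraMap F K)).scaleRoots (D : K) := by
      rw [fD, fF_scale hG.mon, map_scaleRoots]
      · simp
      · rw [(hG.mon.map _).leadingCoeff]
        simp
    rw [e0] at hl
    have e1 : algebraMap L Ω ((D : L) * θ) = algebraMap K Ω (D : K) * algebraMap L Ω θ := by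
      rw [map_mul, map_natCast, map_natCast]
    rw [e1] at hne ⊢
    refine LOC1 K Ω (𝓞 K) (𝓞 Ω) v P hL v2 ((fF f).map (algebraMap F K)) h (D : K)
      (algebraMap L Ω θ) ((hG.mon.map _).map _) ?_ ?_ ?_ ?_ vD hl hne
    · rw [(hG.mon.map _).natDegree_map, hG.mon.natDegree_map, hG.deg]
      exact ⟨g, rfl⟩
    · intro i
      rw [coeff_map, fF, coeff_map, hv]
      exact pow_le_one' (HeightOneSpectrum.valuation_le_one (K := F) w _) e
    · rw [aeval_map_algebraMap, aeval_algebraMap_apply, hG.root, map_zero]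
    · rw [derivative_map, aeval_map_algebraMap, aeval_algebraMap_apply]
      exact hder
  emb w j h' hh := by
    obtain ⟨v, ι, hι⟩ := emb w (j : K →+* w.adicCompletion F)
    have e : ι.comp (algebraMap K (v.adicCompletion K)) = (j : K →+* w.adicCompletion F) :=
      RingHom.ext hι
    have e3 : ∀ p : K[X], (p.map (algebraMap K (v.adicCompletion K))).map ι =
        p.map (j : K →+* w.adicCompletion F) := fun p => by rw [Polynomial.map_map, e]
    have h1 : LocIm (w.adicCompletion F)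
        ((((fD f D).map (algebraMap F K)).map (algebraMap K (v.adicCompletion K))).map ι)
        ((h.map (algebraMap K (v.adicCompletion K))).map ι) := locIm_map ι (hloc v)
    rw [e3, e3, map_emb] at h1
    have h3 := Polynomial.map_dvd (j : K →+* w.adicCompletion F) (congr_D hmin (h := h)
      (h' := h') hh.symm)
    rw [map_emb, Polynomial.map_sub] at h3
    exact locIm_congr h3 h1
  re ρ h' hh := by
    have h1 := hreal ρ
    have h3 := Polynomial.map_dvd ρ (congr_D hmin (h := h) (h' := h') hh.symm)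
    rw [Polynomial.map_sub] at h3
    rw [← Polynomial.map_map]
    exact locIm_congr h3 h1

/-- The theorem on the Selmer group over `K`, in terms of elements of `Ω`. -/
theorem selK [IsGalois F K] {W : ℕ} {f₁ : (𝓞 F)[X]} {S J : Finset ℕ}
    {𝔮 : ℕ → Ideal (𝓞 F)} {r P : ℕ → (𝓞 F)[X]}
    (h1 : S_INT) (h2 : S_PIN) (h3 : S_PAR) (h4 : S_PARQ) (h5 : S_RAM) (h6 : S_CSQ)
    (h7 : S_EXQ) (h8 : S_LIE) (hg : 1 ≤ g) (hG : IsGen g f θ) (hsq : SqF g f)
    (hF : GoodF g W f₁) (hS : GoodS g W S 𝔮 r P) (hc1 : Cg (sp F W) f f₁)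
    (hcq : ∀ q ∈ S, Cg (sp F q) f (P q)) (hJS : J ⊆ S) (hD : D = Dp J)
    (hcore : ∀ h : F[X], aeval θ h ≠ 0 → IsSquare (Algebra.norm F (aeval θ h)) →
      (∀ 𝔓 : HeightOneSpectrum (𝓞 L), (∀ q ∈ J, Ov (𝔮 q) 𝔓 → 𝔓.valuation L θ ≠ 1) →
        Ev 𝔓 (aeval θ h)) →
      (∀ q ∈ J, ∀ 𝔓 : HeightOneSpectrum (𝓞 L), Ov (𝔮 q) 𝔓 → 𝔓.valuation L θ = 1 →
        U0 𝔓 ((q : L) * θ) (aeval θ h)) →
      (∀ w : HeightOneSpectrum (𝓞 F), (2 : 𝓞 F) ∈ w.asIdeal →
        LocF (w.adicCompletion F) (fF f) h) →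
      (∀ σ : F →+* ℝ, LocIm ℝ ((fF f).map σ) (h.map σ)) → IsSquare (aeval θ h))
    {n : ℕ} (hK : Module.finrank F K = 2 ^ n) (hΩ : Module.finrank K Ω = 2 * g + 1)
    (hadj : Algebra.adjoin K {algebraMap L Ω θ} = ⊤)
    (hmin : minpoly K (algebraMap L Ω ((D : L) * θ)) = (fD f D).map (algebraMap F K))
    (hsur : ∀ x : Ω, ∃ h : K[X], aeval (algebraMap L Ω ((D : L) * θ)) h = x)
    (hsurL : ∀ x : L, ∃ h : F[X], aeval ((D : L) * θ) h = x)
    (hA : ∀ w : HeightOneSpectrum (𝓞 F), Nonempty (K →ₐ[F] w.adicCompletion F) ∨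
      ((2 : 𝓞 F) ∉ w.asIdeal ∧
        ((UnrOver K w ∧ (D : 𝓞 F) ∉ w.asIdeal) ∨ Irreducible (rd w.asIdeal f))))
    (hR : ∀ σ : F →+* ℝ, (∃ ρ : K →+* ℝ, ρ.comp (algebraMap F K) = σ) ∨
      ∀ h : F[X], aeval ((D : L) * θ) h ≠ 0 →
        IsSquare (Algebra.norm F (aeval ((D : L) * θ) h)) → LocIm ℝ ((fD f D).map σ) (h.map σ))
    {h : K[X]} (hne : aeval (algebraMap L Ω ((D : L) * θ)) h ≠ 0)
    (hN : IsSquare (Algebra.norm K (aeval (algebraMap L Ω ((D : L) * θ)) h)))
    (hloc : ∀ v : HeightOneSpectrum (𝓞 K),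
      LocF (v.adicCompletion K) ((fD f D).map (algebraMap F K)) h)
    (hreal : ∀ ρ : K →+* ℝ, LocIm ℝ (((fD f D).map (algebraMap F K)).map ρ) (h.map ρ)) :
    IsSquare (aeval (algebraMap L Ω ((D : L) * θ)) h) := by
  have hD0 : D ≠ 0 := by
    rw [hD, Dp, Finset.prod_ne_zero_iff]
    exact fun q hq => (hS q (hJS hq)).1.ne_zero
  refine Pool.Agent.N301.JM.tow' n F L K Ω two_ne_zero hK (by rw [hG.rank]; exact ⟨g, rfl⟩)
    (by rw [hΩ, hG.rank]) (Cn K f D θ) (fun x _ => Cn.sq hG hmin hsur x)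
    (fun x y _ _ hx hy => Cn.mul hG hmin hsur hx hy) (fun τ x hx => Cn.gal τ hx) ?_ _ hne
    (cn_of hG hD0 hmin hne hloc hreal) hN
  -- elements of `L`
  intro x hx hC hNx
  obtain ⟨k, rfl⟩ := hsurL x
  have ek : aeval (algebraMap L Ω ((D : L) * θ)) (k.map (algebraMap F K)) =
      algebraMap L Ω (aeval ((D : L) * θ) k) := by
    rw [aeval_map_algebraMap, aeval_algebraMap_apply]
  have hlow := low h1 h2 h3 h4 h5 h6 h7 h8 hg hG hsq hF hS hc1 hcq hJS hD
    (fun w => Nonempty (K →ₐ[F] w.adicCompletion F)) (UnrOver K) hA hx hNx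
    (by
      rintro w ⟨j⟩
      have h9 := hC.emb w j _ ek
      rw [map_emb] at h9
      exact h9)
    (by
      intro w hun h2w hDw 𝔓 hO hder
      obtain ⟨P', hP'⟩ := exists_over (Ω := Ω) 𝔓
      have hOP : Ov w.asIdeal P' := ov_trans hO hP'
      obtain ⟨v, o1, o2⟩ := exists_mid (K := K) hOP
      have hder' : P'.valuation Ω (algebraMap L Ω (aeval θ (derivative (fF f)))) = 1 := by
        obtain ⟨e, he, hv⟩ := val_pow hP'
        rw [hv, hder, one_pow]
      exact ev_down (val_low hG hadj o2 hO o1 hP' (hun v o2) hder')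
        (hC.ev w h2w hDw P' hOP hder'))
    (by
      intro σ
      rcases hR σ with ⟨ρ, hρ⟩ | h9
      · have h10 := hC.re ρ _ ek
        have e4 : (k.map (algebraMap F K)).map ρ = k.map σ := by rw [Polynomial.map_map, hρ]
        rw [hρ, e4] at h10
        exact h10
      · exact h9 k hx hNx)
  have hcomp : aeval θ (k.comp (C (D : F) * X)) = aeval ((D : L) * θ) k := by
    rw [aeval_comp, map_mul, aeval_C, aeval_X, map_natCast]
  obtain ⟨k1, k2, k3, k4⟩ := hlow
  have hcore' := hcore (k.comp (C (D : F) * X))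
  rw [hcomp] at hcore'
  exact hcore' hx hNx k1 k2 k3 k4

end

end Pool.Agent.Run7.h245.NF
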